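import Pool.Agent.J4.H50.EH.Stm
import Pool.Agent.N879.QM.Coef

set_option autoImplicit false

/-! The coefficients of the Euler products with general local densities. -/

namespace Pool.Agent.J4.H50.EH

open Complex hiding im
open Finset
open Pool.Agent.N879.QM
open scoped BigOperators

noncomputable section

namespace Coef

open Pool.Agent.N879.QM.Coef hiding wt gA_apply expand bY group bY_box af_nonneg af_le_one wt_le bY_sq bY_bound cd cd_box cd_out diff_eq t_COEF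

variable {k : ℕ}

/-- the weight -/
def wt (γ : Gm) (ω : ℕ × (Fin k → ℕ) × (Pr k → ℕ) × (Pr k → ℕ)) : ℝ :=
  af γ ω.1 * ∏ r, ((ArithmeticFunction.moebius (ω.2.2.1 r) : ℤ) : ℝ)

lemma gA_apply (γ : Gm) (β : Fin k → ℝ) {a N : ℕ} (ha : 1 ≤ a) (haN : a ≤ N) :
    gA γ β a = ∑ n ∈ tup k (N ^ 2), if ∏ j, n j = a ^ 2 then (af γ a : ℂ) * cx n β else 0 := by
  have h1 : gA γ β a = (af γ a : ℂ) * ∑ n ∈ Nat.finMulAntidiag k (a ^ 2), cx n β := by
    show (if a = 0 then 0 else (af γ a : ℂ) * ∑ n ∈ Nat.finMulAntidiag k (a ^ 2), cx n β) = _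
    rw [if_neg (by omega)]
  rw [h1, ← Finset.sum_filter, ← Finset.mul_sum]
  congr 1
  refine Finset.sum_congr ?_ fun _ _ => rfl
  ext n
  rw [Nat.mem_finMulAntidiag, Finset.mem_filter, mem_tup]
  have ha2 : a ^ 2 ≠ 0 := by positivity
  constructor
  · rintro ⟨h, -⟩
    refine ⟨fun j => ?_, h⟩
    have hd : n j ∣ a ^ 2 := by rw [← h]; exact Finset.dvd_prod_of_mem n (Finset.mem_univ j)
    refine ⟨Nat.pos_of_dvd_of_pos hd (Nat.pos_of_ne_zero ha2), ?_⟩
    exact (Nat.le_of_dvd (Nat.pos_of_ne_zero ha2) hd).trans (Nat.pow_le_pow_left haN 2)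
  · rintro ⟨-, h⟩
    exact ⟨h, ha2⟩

lemma expand (γ : Gm) (Y : ℕ) (β : Fin k → ℝ) :
    (∑ m ∈ Icc 1 (Y ^ k), al γ β m) * (∏ r : Pr k, zN Y (pp β r)) =
      ∑ ω ∈ Om k Y, (wt γ ω : ℂ) * cx (fi ω) β := by
  have hz : (∏ r : Pr k, zN Y (pp β r)) = ∑ e ∈ bx k Y, ∏ r, ph (pp β r) (e r) := by
    unfold zN bx
    rw [Finset.prod_univ_sum]
    rfl
  have hal : ∑ m ∈ Icc 1 (Y ^ k), al γ β m = ∑ a ∈ Icc 1 (Y ^ k), ∑ f ∈ bx k (Y ^ k),
      if a * ∏ r, f r ≤ Y ^ k then gA γ β a * ∏ r, muA (pp β r) (f r) else 0 := by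
    unfold al bx
    exact psum (Y ^ k) (gA γ β) (fun r : Pr k => muA (pp β r))
  rw [hz, hal]
  unfold Om
  rw [Finset.sum_filter, Finset.sum_product, Finset.sum_mul]
  refine Finset.sum_congr rfl fun a ha => ?_
  rw [Finset.mem_Icc] at ha
  rw [Finset.sum_product]
  have h1 : ∀ n ∈ tup k (Y ^ (2 * k)), ∑ y ∈ bx k (Y ^ k) ×ˢ bx k Y,
      (if ∏ j, (a, n, y).2.1 j = (a, n, y).1 ^ 2 ∧ (a, n, y).1 * ∏ r, (a, n, y).2.2.1 r ≤ Y ^ k then
        (wt γ (a, n, y) : ℂ) * cx (fi (a, n, y)) β else 0) =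
      ∑ f ∈ bx k (Y ^ k), ∑ e ∈ bx k Y,
        (if a * ∏ r, f r ≤ Y ^ k then (if ∏ j, n j = a ^ 2 then (af γ a : ℂ) * cx n β else 0) *
          ∏ r, muA (pp β r) (f r) else 0) * ∏ r, ph (pp β r) (e r) := by
    intro n _
    rw [Finset.sum_product]
    refine Finset.sum_congr rfl fun f hf => Finset.sum_congr rfl fun e he => ?_
    rw [mem_bx] at hf he
    have h2 : (wt γ (a, n, f, e) : ℂ) * cx (fi (a, n, f, e)) β =
        (af γ a : ℂ) * cx n β * (∏ r, muA (pp β r) (f r)) * ∏ r, ph (pp β r) (e r) := by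
      unfold wt fi
      rw [cx_mul, cx_EE _ (fun r => by
        have a1 := hf r
        have a2 := he r
        show f r * e r ≠ 0
        exact mul_ne_zero (Nat.one_le_iff_ne_zero.mp a1.1) (Nat.one_le_iff_ne_zero.mp a2.1)),
        muA_prod]
      simp only [Pi.mul_apply, map_mul, Finset.prod_mul_distrib]
      push_cast
      ring
    by_cases c1 : ∏ j, n j = a ^ 2
    · by_cases c2 : a * ∏ r, f r ≤ Y ^ k
      · rw [if_pos ⟨c1, c2⟩, if_pos c2, if_pos c1, h2]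
      · rw [if_neg (fun h => c2 h.2), if_neg c2, zero_mul]
    · rw [if_neg (fun h => c1 h.1), if_neg c1, zero_mul, ite_self, zero_mul]
  rw [Finset.sum_congr rfl h1, Finset.sum_comm, Finset.sum_mul]
  refine Finset.sum_congr rfl fun f _ => ?_
  have h3 : (if a * ∏ r, f r ≤ Y ^ k then gA γ β a * ∏ r, muA (pp β r) (f r) else 0) =
      ∑ n ∈ tup k (Y ^ (2 * k)), (if a * ∏ r, f r ≤ Y ^ k then
        (if ∏ j, n j = a ^ 2 then (af γ a : ℂ) * cx n β else 0) * ∏ r, muA (pp β r) (f r) else 0) := by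
    split_ifs
    · rw [gA_apply γ β ha.1 ha.2, ← Finset.sum_mul, ← pow_mul, mul_comm k 2]
    · rw [Finset.sum_const_zero]
  rw [h3, Finset.sum_mul_sum]

/-- the coefficients -/
def bY (γ : Gm) (Y : ℕ) (n : Fin k → ℕ) : ℝ := ∑ ω ∈ (Om k Y).filter (fun ω => fi ω = n), wt γ ω

lemma group (γ : Gm) (Y : ℕ) (β : Fin k → ℝ) :
    (∑ m ∈ Icc 1 (Y ^ k), al γ β m) * (∏ r : Pr k, zN Y (pp β r)) =
      ∑ n ∈ tup k (LN k Y), (bY γ Y n : ℂ) * cx n β := by
  rw [expand γ, ← Finset.sum_fiberwise_of_maps_to fi_mem]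
  refine Finset.sum_congr rfl fun n _ => ?_
  unfold bY
  push_cast
  rw [Finset.sum_mul]
  refine Finset.sum_congr rfl fun ω hω => ?_
  rw [(Finset.mem_filter.mp hω).2]

/-- (b) the coefficients in the box -/
lemma bY_box (γ : Gm) {Y : ℕ} (hY : 1 ≤ Y) {n : Fin k → ℕ} (hn : n ∈ tup k Y) :
    bY γ Y n = if IsSquare (∏ j, n j) then af γ (∏ j, n j) else 0 := by
  classical
  have hn' := mem_tup.mp hn
  have hprod : ∏ j, n j ≤ Y ^ k := by
    calc ∏ j, n j ≤ ∏ _j : Fin k, Y := Finset.prod_le_prod' fun j _ => (hn' j).2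
      _ = Y ^ k := by rw [Finset.prod_const, Finset.card_univ, Fintype.card_fin]
  have h1 : bY γ Y n = ∑ a ∈ Icc 1 (Y ^ k), ∑ n' ∈ tup k (Y ^ (2 * k)),
      if ∏ j, n' j = a ^ 2 then af γ a * (∑ f ∈ bx k (Y ^ k), ∑ e ∈ bx k Y,
        (if n' * EE (f * e) = n then (1 : ℝ) else 0) *
          ∏ r, ((ArithmeticFunction.moebius (f r) : ℤ) : ℝ)) else 0 := by
    unfold bY Om
    rw [Finset.filter_filter, Finset.sum_filter, Finset.sum_product]
    refine Finset.sum_congr rfl fun a ha => ?_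
    rw [Finset.sum_product]
    refine Finset.sum_congr rfl fun n' hn'' => ?_
    rw [Finset.sum_product]
    rw [Finset.mem_Icc] at ha
    by_cases c1 : ∏ j, n' j = a ^ 2
    · rw [if_pos c1, Finset.mul_sum]
      refine Finset.sum_congr rfl fun f hf => ?_
      rw [Finset.mul_sum]
      refine Finset.sum_congr rfl fun e he => ?_
      unfold wt fi
      rw [mem_bx] at hf he
      by_cases c2 : n' * EE (f * e) = n
      · have h2 : (a * (∏ r, f r) * ∏ r, e r) ^ 2 ≤ Y ^ k := by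
          refine le_trans (le_of_eq ?_) hprod
          rw [← c2]
          simp only [Pi.mul_apply, Finset.prod_mul_distrib]
          rw [prod_EE, c1]
          simp only [Pi.mul_apply, Finset.prod_mul_distrib]
          ring
        have h3 : a * ∏ r, f r ≤ Y ^ k := by
          refine le_trans ?_ h2
          have he1 : 1 ≤ ∏ r, e r := one_le_prod fun r => (he r).1
          have hf1 : 1 ≤ ∏ r, f r := one_le_prod fun r => (hf r).1
          have hpos : 1 ≤ a * (∏ r, f r) * ∏ r, e r :=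
            Nat.mul_pos (Nat.mul_pos ha.1 hf1) he1
          calc a * ∏ r, f r ≤ a * (∏ r, f r) * ∏ r, e r := Nat.le_mul_of_pos_right _ he1
            _ ≤ (a * (∏ r, f r) * ∏ r, e r) ^ 2 := Nat.le_self_pow (by norm_num) _
        rw [if_pos ⟨⟨c1, h3⟩, c2⟩, if_pos c2, one_mul]
      · rw [if_neg (fun h => c2 h.2), if_neg c2, zero_mul, mul_zero]
    · rw [if_neg c1]
      refine Finset.sum_eq_zero fun f _ => Finset.sum_eq_zero fun e _ => ?_
      rw [if_neg (fun h => c1 h.1.1)]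
  have h2 : ∀ n' : Fin k → ℕ, (∑ f ∈ bx k (Y ^ k), ∑ e ∈ bx k Y,
        (if n' * EE (f * e) = n then (1 : ℝ) else 0) *
          ∏ r, ((ArithmeticFunction.moebius (f r) : ℤ) : ℝ)) = if n' = n then 1 else 0 := by
    intro n'
    have := mob (ι := Pr k) (N := Y ^ k) hY (fun r => by
      have hk : k ≠ 0 := by
        rintro rfl
        exact r.1.1.elim0
      exact Nat.le_self_pow hk Y)
      (fun g => if n' * EE g = n then (1 : ℝ) else 0) (by
        intro g hg r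
        have h3 : n' * EE g = n := by
          by_contra h
          exact hg (if_neg h)
        have h4 : g r ∣ n r.1.1 := by
          rw [← h3]
          exact (dvd_EE g r).mul_left _
        have h5 := hn' r.1.1
        exact (Nat.le_of_dvd h5.1 h4).trans h5.2)
    unfold bx
    rw [this, EE_one, mul_one]
  rw [h1]
  simp only [h2, mul_ite, mul_one, mul_zero]
  have h3 : ∀ a ∈ Icc 1 (Y ^ k), ∑ n' ∈ tup k (Y ^ (2 * k)),
      (if ∏ j, n' j = a ^ 2 then if n' = n then af γ a else 0 else 0) =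
      if ∏ j, n j = a ^ 2 then af γ a else 0 := by
    intro a _
    rw [Finset.sum_eq_single n]
    · rw [if_pos rfl]
    · intro n' _ hne
      rw [if_neg hne, ite_self]
    · intro h
      exfalso
      apply h
      rw [mem_tup]
      intro j
      have hk : 2 * k ≠ 0 := by
        have := j.2
        omega
      exact ⟨(hn' j).1, (hn' j).2.trans (Nat.le_self_pow hk Y)⟩
  rw [Finset.sum_congr rfl h3]
  have hP : 1 ≤ ∏ j, n j := one_le_prod fun j => (hn' j).1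
  split_ifs with hsq
  · obtain ⟨a, ha⟩ := hsq
    rw [← sq] at ha
    have ha0 : 1 ≤ a := by
      rcases Nat.eq_zero_or_pos a with h | h
      · rw [h] at ha
        simp at ha
        omega
      · exact h
    rw [Finset.sum_eq_single a]
    · rw [if_pos ha, ha]
      unfold af
      rw [Nat.primeFactors_pow _ two_ne_zero]
    · intro b _ hb
      rw [if_neg]
      intro h
      rw [ha] at h
      exact hb ((Nat.pow_left_injective two_ne_zero h).symm)
    · intro h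
      exfalso
      apply h
      rw [Finset.mem_Icc]
      refine ⟨ha0, ?_⟩
      refine le_trans ?_ hprod
      rw [ha]
      exact Nat.le_self_pow two_ne_zero a
  · refine Finset.sum_eq_zero fun a _ => ?_
    rw [if_neg]
    intro h
    exact hsq ⟨a, by rw [h, sq]⟩

lemma af_nonneg (γ : Gm) (n : ℕ) : 0 ≤ af γ n := Finset.prod_nonneg fun p _ => γ.nn p

lemma af_le_one (γ : Gm) (n : ℕ) : af γ n ≤ 1 := Finset.prod_le_one (fun p _ => γ.nn p) fun p _ => γ.le1 p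

lemma wt_le (γ : Gm) (ω : ℕ × (Fin k → ℕ) × (Pr k → ℕ) × (Pr k → ℕ)) : |wt γ ω| ≤ 1 := by
  unfold wt
  rw [abs_mul, abs_of_nonneg (af_nonneg γ _), Finset.abs_prod]
  refine mul_le_one₀ (af_le_one γ _) (Finset.prod_nonneg fun _ _ => abs_nonneg _) ?_
  refine Finset.prod_le_one (fun _ _ => abs_nonneg _) fun r _ => ?_
  have h := ArithmeticFunction.abs_moebius_le_one (n := ω.2.2.1 r)
  have h2 : |((ArithmeticFunction.moebius (ω.2.2.1 r) : ℤ) : ℝ)| =
      ((|ArithmeticFunction.moebius (ω.2.2.1 r)| : ℤ) : ℝ) := by push_cast; rfl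
  rw [h2]
  exact_mod_cast h

lemma bY_sq (γ : Gm) {Y : ℕ} {n : Fin k → ℕ} (h : bY γ Y n ≠ 0) : IsSquare (∏ j, n j) := by
  unfold bY at h
  obtain ⟨⟨a, n', f, e⟩, hω, -⟩ := Finset.exists_ne_zero_of_sum_ne_zero h
  rw [Finset.mem_filter] at hω
  rw [← hω.2, prod_fi hω.1]
  exact ⟨_, sq _⟩

lemma bY_bound (k : ℕ) : ∃ C : ℝ, 0 < C ∧ ∀ (γ : Gm) (Y : ℕ) (n : Fin k → ℕ), (∀ j, 1 ≤ n j) →
    |bY γ Y n| ≤ C * PP n ^ (1 / 100 : ℝ) := by
  obtain ⟨C, hC0, hC⟩ := div_pow 2 (1 / 100 / (Fintype.card (Pr k) + 1)) (by positivity)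
  refine ⟨max C 1 ^ (Fintype.card (Pr k)), by positivity, fun γ Y n hn => ?_⟩
  have hP := one_le_PP hn
  have h1 : |bY γ Y n| ≤ (((Om k Y).filter (fun ω => fi ω = n)).card : ℝ) := by
    unfold bY
    refine (Finset.abs_sum_le_sum_abs _ _).trans ?_
    refine (Finset.sum_le_sum fun ω _ => wt_le γ ω).trans ?_
    rw [Finset.sum_const, nsmul_eq_mul, mul_one]
  refine h1.trans ?_
  have h2 : (((Om k Y).filter (fun ω => fi ω = n)).card : ℝ) ≤
      (∏ r : Pr k, ((n r.1.1).divisors.card : ℝ)) ^ 2 := by exact_mod_cast fiber_card Y hn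
  refine h2.trans ?_
  rw [← Finset.prod_pow]
  calc ∏ r : Pr k, ((n r.1.1).divisors.card : ℝ) ^ 2
      ≤ ∏ _r : Pr k, (max C 1 * PP n ^ ((1 / 100 : ℝ) / (Fintype.card (Pr k) + 1))) := by
        refine Finset.prod_le_prod (fun _ _ => by positivity) fun r _ => ?_
        refine (hC _ (hn r.1.1)).trans ?_
        have h3 : (0 : ℝ) ≤ (n r.1.1 : ℝ) := by positivity
        exact mul_le_mul (le_max_left _ _) (Real.rpow_le_rpow h3 (le_PP hn _) (by positivity))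
          (by positivity) (by positivity)
    _ = max C 1 ^ (Fintype.card (Pr k)) *
        PP n ^ ((1 / 100 : ℝ) / (Fintype.card (Pr k) + 1) * (Fintype.card (Pr k))) := by
        rw [Finset.prod_const, Finset.card_univ, mul_pow,
          ← Real.rpow_natCast (PP n ^ ((1 / 100 : ℝ) / (Fintype.card (Pr k) + 1))),
          ← Real.rpow_mul (by linarith)]
    _ ≤ max C 1 ^ (Fintype.card (Pr k)) * PP n ^ (1 / 100 : ℝ) := by
        apply mul_le_mul_of_nonneg_left _ (by positivity)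
        apply Real.rpow_le_rpow_of_exponent_le hP
        rw [div_mul_eq_mul_div, div_le_iff₀ (by positivity)]
        nlinarith

/-- the coefficients of the difference -/
def cd (γ : Gm) (Y : ℕ) (n : Fin k → ℕ) : ℝ :=
  bY γ Y n - (if n ∈ tup k Y then (if IsSquare (∏ j, n j) then af γ (∏ j, n j) else 0) else 0)

lemma cd_box (γ : Gm) {Y : ℕ} (hY : 1 ≤ Y) {n : Fin k → ℕ} (hn : n ∈ tup k Y) : cd γ Y n = 0 := by
  unfold cd
  rw [if_pos hn, bY_box γ hY hn, sub_self]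

lemma cd_out (γ : Gm) {Y : ℕ} {n : Fin k → ℕ} (hn : n ∉ tup k Y) : cd γ Y n = bY γ Y n := by
  unfold cd
  rw [if_neg hn, sub_zero]

lemma diff_eq (γ : Gm) {Y : ℕ} (hY : 1 ≤ Y) (β : Fin k → ℝ) :
    (∑ m ∈ Icc 1 (Y ^ k), al γ β m) * (∏ r : Pr k, zN Y (pp β r)) - SN γ k Y β =
      ∑ n ∈ tup k (LN k Y), ((cd γ Y n : ℂ) * ((PP n ^ (-(1 / 2) : ℝ) : ℝ) : ℂ)) *
        ∏ j, (n j : ℂ) ^ (-(I * (β j : ℂ))) := by
  classical
  have h1 : SN γ k Y β = ∑ n ∈ tup k (LN k Y), (((if n ∈ tup k Y then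
      (if IsSquare (∏ j, n j) then af γ (∏ j, n j) else 0) else 0 : ℝ)) : ℂ) * cx n β := by
    have h2 : ∀ n ∈ tup k (LN k Y), (((if n ∈ tup k Y then
      (if IsSquare (∏ j, n j) then af γ (∏ j, n j) else 0) else 0 : ℝ)) : ℂ) * cx n β =
      if n ∈ tup k Y then (if IsSquare (∏ j, n j) then (af γ (∏ j, n j) : ℂ) * cx n β else 0)
        else 0 := by
      intro n _
      split_ifs <;> simp
    rw [Finset.sum_congr rfl h2, Finset.sum_ite_mem, Finset.inter_eq_right.mpr (tup_sub hY)]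
    unfold SN
    refine Finset.sum_congr rfl fun n _ => ?_
    split_ifs <;> rfl
  rw [group γ, h1, ← Finset.sum_sub_distrib]
  refine Finset.sum_congr rfl fun n hn => ?_
  rw [mem_tup] at hn
  rw [← sub_mul, cx_split (fun j => (hn j).1)]
  unfold cd
  push_cast
  ring

theorem t_COEF (h : S_FL) : S_COEF := by
  classical
  intro k
  obtain ⟨Cb, hCb0, hCb⟩ := bY_bound k
  obtain ⟨Cs, hCs0, hCs⟩ := sumsq k
  obtain ⟨E, hE⟩ : ∃ E : ℕ, E = 2 * k + 2 * (k + 1) * Fintype.card (Pr k) := ⟨_, rfl⟩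
  refine ⟨2 ^ k * (Cb ^ 2 * Cs + 2 * Cb ^ 2), E * (4 * k + 1) + 1, by positivity,
    fun γ A Y hY hA => ?_⟩
  have hYr : (1 : ℝ) ≤ Y := by exact_mod_cast hY
  have hA1 : 1 ≤ A := (one_le_pow₀ hYr).trans hA
  have hA0 : 0 < A := by linarith
  obtain ⟨L, hL⟩ : ∃ L : ℕ, L = LN k Y := ⟨_, rfl⟩
  have hLE : (L : ℝ) = (Y : ℝ) ^ E := by rw [hL, hE]; unfold LN; push_cast; rfl
  have hL1 : 1 ≤ L := by rw [hL]; unfold LN; exact Nat.one_le_pow _ _ hY
  have hL1r : (1 : ℝ) ≤ L := by exact_mod_cast hL1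
  have hfl := h k L A (fun n => (cd γ Y n : ℂ) * ((PP n ^ (-(1 / 2) : ℝ) : ℝ) : ℂ)) hL1 hA0
  have hint : ∀ β : Fin k → ℝ, (∑ m ∈ Finset.Icc 1 (Y ^ k), al γ β m) * (∏ r : Pr k, zN Y (pp β r))
      - SN γ k Y β = ∑ n ∈ tup k L, ((cd γ Y n : ℂ) * ((PP n ^ (-(1 / 2) : ℝ) : ℝ) : ℂ)) *
        ∏ j, (n j : ℂ) ^ (-(I * (β j : ℂ))) := by
    intro β
    rw [hL]
    exact diff_eq γ hY β
  simp only [hint]
  refine hfl.trans (ENNReal.ofReal_le_ofReal ?_)
  -- norms of the coefficients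
  have hnorm : ∀ n ∈ tup k L, ‖(cd γ Y n : ℂ) * ((PP n ^ (-(1 / 2) : ℝ) : ℝ) : ℂ)‖ =
      |cd γ Y n| * PP n ^ (-(1 / 2) : ℝ) := by
    intro n hn
    rw [mem_tup] at hn
    have hP := one_le_PP (fun j => (hn j).1)
    rw [norm_mul, Complex.norm_real, Complex.norm_real, Real.norm_eq_abs, Real.norm_eq_abs,
      abs_of_nonneg (by positivity : 0 ≤ PP n ^ (-(1 / 2) : ℝ))]
  have hcd : ∀ n ∈ tup k L, |cd γ Y n| ≤ Cb * PP n ^ (1 / 100 : ℝ) := by
    intro n hn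
    rw [mem_tup] at hn
    by_cases hb : n ∈ tup k Y
    · rw [cd_box γ hY hb, abs_zero]
      have hP := one_le_PP (fun j => (hn j).1)
      positivity
    · rw [cd_out γ hb]
      exact hCb γ Y n fun j => (hn j).1
  -- first sum
  have hS1 : ∑ n ∈ tup k L, ‖(cd γ Y n : ℂ) * ((PP n ^ (-(1 / 2) : ℝ) : ℝ) : ℂ)‖ ^ 2 ≤
      Cb ^ 2 * (Y : ℝ) ^ (-(1 / 3) : ℝ) * Cs := by
    have h1 : ∀ n ∈ tup k L, ‖(cd γ Y n : ℂ) * ((PP n ^ (-(1 / 2) : ℝ) : ℝ) : ℂ)‖ ^ 2 ≤
        if IsSquare (∏ j, n j) then Cb ^ 2 * (Y : ℝ) ^ (-(1 / 3) : ℝ) * PP n ^ (-(16 / 25) : ℝ)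
          else 0 := by
      intro n hn
      rw [hnorm n hn]
      have hc := hcd n hn
      have hn' := mem_tup.mp hn
      have hP := one_le_PP (fun j => (hn' j).1)
      have hP0 : 0 < PP n := by linarith
      by_cases hz : cd γ Y n = 0
      · rw [hz, abs_zero, zero_mul, zero_pow two_ne_zero]
        split_ifs
        · positivity
        · exact le_rfl
      · have hb : n ∉ tup k Y := fun hb => hz (cd_box γ hY hb)
        have hsq : IsSquare (∏ j, n j) := by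
          apply bY_sq γ (Y := Y)
          rw [← cd_out γ hb]
          exact hz
        rw [if_pos hsq]
        have hex : ∃ j, Y < n j := by
          by_contra hcon
          push Not at hcon
          exact hb (mem_tup.mpr fun j => ⟨(hn' j).1, hcon j⟩)
        obtain ⟨j, hj⟩ := hex
        have hYP : (Y : ℝ) ≤ PP n := by
          have h2 := le_PP (fun j => (hn' j).1) j
          have h3 : (Y : ℝ) < n j := by exact_mod_cast hj
          linarith
        have h4 : (Y : ℝ) ^ (1 / 3 : ℝ) ≤ PP n ^ (1 / 3 : ℝ) :=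
          Real.rpow_le_rpow (by linarith) hYP (by norm_num)
        have h5 : 1 ≤ (Y : ℝ) ^ (-(1 / 3) : ℝ) * PP n ^ (1 / 3 : ℝ) := by
          have h6 : (Y : ℝ) ^ (-(1 / 3) : ℝ) * (Y : ℝ) ^ (1 / 3 : ℝ) = 1 := by
            rw [← Real.rpow_add (by linarith)]
            norm_num
          calc (1 : ℝ) = (Y : ℝ) ^ (-(1 / 3) : ℝ) * (Y : ℝ) ^ (1 / 3 : ℝ) := h6.symm
            _ ≤ _ := mul_le_mul_of_nonneg_left h4 (by positivity)
        calc (|cd γ Y n| * PP n ^ (-(1 / 2) : ℝ)) ^ 2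
            ≤ (Cb * PP n ^ (1 / 100 : ℝ) * PP n ^ (-(1 / 2) : ℝ)) ^ 2 := by
              apply pow_le_pow_left₀ (by positivity)
              exact mul_le_mul_of_nonneg_right hc (by positivity)
          _ = Cb ^ 2 * PP n ^ (-(49 / 50) : ℝ) := by
              rw [mul_assoc, ← Real.rpow_add hP0, mul_pow, ← Real.rpow_natCast (PP n ^ _) 2,
                ← Real.rpow_mul hP0.le]
              norm_num
          _ ≤ Cb ^ 2 * PP n ^ (-(49 / 50) : ℝ) *
                ((Y : ℝ) ^ (-(1 / 3) : ℝ) * PP n ^ (1 / 3 : ℝ)) :=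
              le_mul_of_one_le_right (by positivity) h5
          _ = Cb ^ 2 * (Y : ℝ) ^ (-(1 / 3) : ℝ) * (PP n ^ (-(49 / 50) : ℝ) * PP n ^ (1 / 3 : ℝ)) := by
              ring
          _ = Cb ^ 2 * (Y : ℝ) ^ (-(1 / 3) : ℝ) * PP n ^ (-(97 / 150) : ℝ) := by
              rw [← Real.rpow_add hP0]
              norm_num
          _ ≤ Cb ^ 2 * (Y : ℝ) ^ (-(1 / 3) : ℝ) * PP n ^ (-(16 / 25) : ℝ) := by
              apply mul_le_mul_of_nonneg_left _ (by positivity)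
              exact Real.rpow_le_rpow_of_exponent_le hP (by norm_num)
    refine (Finset.sum_le_sum h1).trans ?_
    rw [← Finset.sum_filter, ← Finset.mul_sum]
    exact mul_le_mul_of_nonneg_left (hCs L) (by positivity)
  -- second sum
  have hS2 : ∑ n ∈ tup k L, ‖(cd γ Y n : ℂ) * ((PP n ^ (-(1 / 2) : ℝ) : ℝ) : ℂ)‖ ≤
      Cb * (L : ℝ) ^ (2 * k) := by
    have h1 : ∀ n ∈ tup k L, ‖(cd γ Y n : ℂ) * ((PP n ^ (-(1 / 2) : ℝ) : ℝ) : ℂ)‖ ≤
        Cb * (L : ℝ) ^ k := by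
      intro n hn
      rw [hnorm n hn]
      have hc := hcd n hn
      have hn' := mem_tup.mp hn
      have hP := one_le_PP (fun j => (hn' j).1)
      have hP0 : 0 < PP n := by linarith
      have h2 : PP n ^ (-(1 / 2) : ℝ) ≤ 1 := Real.rpow_le_one_of_one_le_of_nonpos hP (by norm_num)
      have h3 : PP n ^ (1 / 100 : ℝ) ≤ PP n := by
        calc PP n ^ (1 / 100 : ℝ) ≤ PP n ^ (1 : ℝ) :=
              Real.rpow_le_rpow_of_exponent_le hP (by norm_num)
          _ = PP n := Real.rpow_one _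
      have h4 : PP n ≤ (L : ℝ) ^ k := by
        unfold PP
        have : ∏ j, n j ≤ L ^ k := by
          calc ∏ j, n j ≤ ∏ _j : Fin k, L := Finset.prod_le_prod' fun j _ => (hn' j).2
            _ = L ^ k := by rw [Finset.prod_const, Finset.card_univ, Fintype.card_fin]
        exact_mod_cast this
      calc |cd γ Y n| * PP n ^ (-(1 / 2) : ℝ) ≤ |cd γ Y n| * 1 :=
            mul_le_mul_of_nonneg_left h2 (abs_nonneg _)
        _ ≤ Cb * PP n ^ (1 / 100 : ℝ) := by rw [mul_one]; exact hc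
        _ ≤ Cb * (L : ℝ) ^ k := mul_le_mul_of_nonneg_left (h3.trans h4) hCb0.le
    refine (Finset.sum_le_sum h1).trans ?_
    rw [Finset.sum_const, nsmul_eq_mul]
    have h5 : ((tup k L).card : ℝ) = (L : ℝ) ^ k := by
      unfold tup
      rw [Fintype.card_piFinset]
      simp
    rw [h5, two_mul, pow_add]
    apply le_of_eq
    ring
  have hS2' : (∑ n ∈ tup k L, ‖(cd γ Y n : ℂ) * ((PP n ^ (-(1 / 2) : ℝ) : ℝ) : ℂ)‖) ^ 2 ≤
      Cb ^ 2 * (L : ℝ) ^ (4 * k) := by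
    calc _ ≤ (Cb * (L : ℝ) ^ (2 * k)) ^ 2 :=
          pow_le_pow_left₀ (Finset.sum_nonneg fun _ _ => norm_nonneg _) hS2 2
      _ = Cb ^ 2 * (L : ℝ) ^ (4 * k) := by rw [mul_pow, ← pow_mul]; ring_nf
  have hpow : (2 * A) ^ ((k : ℝ) - 1) = (2 * A) ^ k / (2 * A) := by
    rw [Real.rpow_sub_one (by positivity), Real.rpow_natCast]
  have hLA : (L : ℝ) ^ (4 * k + 1) * Y ≤ A := by
    rw [hLE, ← pow_mul, ← pow_succ]
    exact hA
  have hY14 : (Y : ℝ) ^ (-(1 / 3) : ℝ) ≤ (Y : ℝ) ^ (-(1 / 4) : ℝ) :=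
    Real.rpow_le_rpow_of_exponent_le hYr (by norm_num)
  have hYinv : (Y : ℝ)⁻¹ ≤ (Y : ℝ) ^ (-(1 / 4) : ℝ) := by
    rw [← Real.rpow_neg_one]
    exact Real.rpow_le_rpow_of_exponent_le hYr (by norm_num)
  have hLA2 : (L : ℝ) ^ (4 * k + 1) / A ≤ (Y : ℝ) ^ (-(1 / 4) : ℝ) := by
    refine le_trans ?_ hYinv
    rw [div_le_iff₀ hA0, inv_mul_eq_div, le_div_iff₀ (by linarith)]
    exact hLA
  rw [hpow]
  have t1 : (2 * A) ^ k * ∑ n ∈ tup k L, ‖(cd γ Y n : ℂ) * ((PP n ^ (-(1 / 2) : ℝ) : ℝ) : ℂ)‖ ^ 2 ≤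
      (2 * A) ^ k * (Cb ^ 2 * (Y : ℝ) ^ (-(1 / 4) : ℝ) * Cs) := by
    apply mul_le_mul_of_nonneg_left _ (by positivity)
    refine hS1.trans ?_
    apply mul_le_mul_of_nonneg_right _ hCs0.le
    exact mul_le_mul_of_nonneg_left hY14 (by positivity)
  have t2 : 4 * (L : ℝ) * ((2 * A) ^ k / (2 * A)) *
      (∑ n ∈ tup k L, ‖(cd γ Y n : ℂ) * ((PP n ^ (-(1 / 2) : ℝ) : ℝ) : ℂ)‖) ^ 2 ≤
      (2 * A) ^ k * (2 * Cb ^ 2 * (Y : ℝ) ^ (-(1 / 4) : ℝ)) := by
    calc _ ≤ 4 * (L : ℝ) * ((2 * A) ^ k / (2 * A)) * (Cb ^ 2 * (L : ℝ) ^ (4 * k)) :=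
          mul_le_mul_of_nonneg_left hS2' (by positivity)
      _ = (2 * A) ^ k * (2 * Cb ^ 2 * ((L : ℝ) ^ (4 * k + 1) / A)) := by
          rw [pow_succ]
          field_simp
          ring
      _ ≤ _ := by
          apply mul_le_mul_of_nonneg_left _ (by positivity)
          exact mul_le_mul_of_nonneg_left hLA2 (by positivity)
  calc _ ≤ (2 * A) ^ k * (Cb ^ 2 * (Y : ℝ) ^ (-(1 / 4) : ℝ) * Cs) +
        (2 * A) ^ k * (2 * Cb ^ 2 * (Y : ℝ) ^ (-(1 / 4) : ℝ)) := add_le_add t1 t2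
    _ = 2 ^ k * (Cb ^ 2 * Cs + 2 * Cb ^ 2) * A ^ k * (Y : ℝ) ^ (-(1 / 4) : ℝ) := by
        rw [mul_pow]
        ring

end Coef

end

end Pool.Agent.J4.H50.EH
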