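import Pool.Agent.J4.H50.EH.Eul
import Pool.Agent.J4.H50.EH.Coef
import Pool.Agent.J4.H50.EH.Zr
import Pool.Agent.N879.QM.Asm2
import Pool.Agent.J4.H50.EA.W8

set_option autoImplicit false

/-! Assembly for general local densities. -/

namespace Pool.Agent.J4.H50.EH

open Complex hiding im
open Filter Topology MeasureTheory Set
open Pool.Agent.N879.QM hiding meas_gA meas_al meas_Ak meas_MT meas_SN E3

noncomputable section

variable {k : ℕ}

lemma meas_gA (γ : Gm) (m : ℕ) : Measurable fun β : Fin k → ℝ => gA γ β m := by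
  have e : (fun β : Fin k → ℝ => gA γ β m) = fun β =>
      if m = 0 then 0 else (af γ m : ℂ) * ∑ n ∈ Nat.finMulAntidiag k (m ^ 2), cx n β := by
    funext β
    rfl
  rw [e]
  by_cases h : m = 0
  · simp only [h, if_true]
    exact measurable_const
  · simp only [h, if_false]
    exact measurable_const.mul (Finset.measurable_sum _ fun n _ => meas_cx n)

lemma meas_al (γ : Gm) (m : ℕ) : Measurable fun β : Fin k → ℝ => al γ β m := by
  classical
  unfold al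
  exact meas_mul (meas_gA γ) (meas_prod Finset.univ) m

lemma meas_Ak (γ : Gm) (hE : S_EUL γ.D) : Measurable fun β : Fin k → ℝ => Ak γ (im β) := by
  obtain ⟨C₀, κ, hC₀, hκ, h⟩ := hE k
  have h := h γ rfl
  obtain ⟨C, hC⟩ : ∃ C : ℝ, C = C₀ * κ ^ γ.S.card := ⟨_, rfl⟩
  rw [← hC] at h
  refine measurable_of_tendsto_metrizable (f := fun (M : ℕ) (β : Fin k → ℝ) =>
    ∑ m ∈ Finset.Icc 1 M, al γ β m) (fun M => Finset.measurable_sum _ fun m _ => meas_al γ m) ?_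
  rw [tendsto_pi_nhds]
  intro β
  rw [tendsto_iff_norm_sub_tendsto_zero]
  have h1 : Tendsto (fun M : ℕ => C * (M : ℝ) ^ (-(1 / 4) : ℝ)) atTop (𝓝 0) := by
    have := (tendsto_rpow_neg_atTop (y := (1 / 4 : ℝ)) (by norm_num)).comp tendsto_natCast_atTop_atTop
    simpa using this.const_mul C
  refine squeeze_zero' (Eventually.of_forall fun M => norm_nonneg _) ?_ h1
  filter_upwards [eventually_ge_atTop 1] with M hM
  rw [norm_sub_rev]
  exact (h β).2 M hM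

lemma meas_MT (γ : Gm) (hE : S_EUL γ.D) : Measurable fun β : Fin k → ℝ => MT γ (im β) := by
  unfold MT
  refine (meas_Ak γ hE).mul (Finset.measurable_prod _ fun r _ => meas_zeta.comp ?_)
  have : Continuous fun β : Fin k → ℝ => (1 + im β r.1.1 + im β r.1.2 : ℂ) := by
    unfold im
    fun_prop
  exact this.measurable

lemma meas_SN (γ : Gm) (N : ℕ) : Measurable fun β : Fin k → ℝ => SN γ k N β := by
  classical
  unfold SN
  refine Finset.measurable_sum _ fun n _ => ?_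
  split_ifs
  · exact measurable_const.mul (meas_cx n)
  · exact measurable_const

/-- the second mean square -/
lemma E3 {D : ℝ} (hC : S_COEF) (hZ : S_ZR D) (hE : S_EUL D) (hk : 1 ≤ k) {θ : ℝ} (hθ : 1 ≤ θ) :
    ∃ m₀ : ℕ, ∀ m : ℕ, m₀ ≤ m → 1 ≤ m → ∃ C κ X₀ : ℝ, 0 < C ∧ 1 ≤ κ ∧ ∀ (γ : Gm), γ.D = D →
      ∀ (X : ℝ) (N : ℕ), X₀ ≤ X → 2 ≤ X →
      X ^ (1 / m : ℝ) / 2 ≤ N → (N : ℝ) ≤ X ^ (1 / m : ℝ) → 1 ≤ N →
      ∫⁻ β in Gd k (X ^ θ), ENNReal.ofReal (‖SN γ k N β - MT γ (im β)‖ ^ 2) ∂(mS k (X ^ θ)) ≤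
        ENNReal.ofReal (C * κ ^ γ.S.card * X ^ (k * θ - 1 / (4 * m))) := by
  obtain ⟨C1, B1, hC1, hC⟩ := hC k
  obtain ⟨C2', κ, A₀, B2, hC2', hκ, hA₀, hZ⟩ := hZ k
  refine ⟨B1 + 2, ?_⟩
  intro m hm hm1
  have hm0 : (0 : ℝ) < m := by exact_mod_cast hm1
  set η : ℝ := 1 / m with hη
  have hη0 : 0 < η := by positivity
  have hθ0 : 0 < θ := by linarith
  have hk1 : (1 : ℝ) ≤ k := by exact_mod_cast hk
  -- logarithms
  have hlog : ∀ᶠ X : ℝ in atTop, (θ * Real.log X) ^ B2 ≤ X ^ (η / 4) := by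
    have h1 := (isLittleO_log_rpow_rpow_atTop (B2 : ℝ) (show 0 < η / 4 by positivity))
    have h2 := h1.def (show 0 < (θ ^ B2)⁻¹ by positivity)
    filter_upwards [h2, eventually_ge_atTop 1] with X hX hX1
    have hl : 0 ≤ Real.log X := Real.log_nonneg hX1
    rw [Real.norm_of_nonneg (by positivity), Real.norm_of_nonneg (by positivity), Real.rpow_natCast] at hX
    rw [mul_pow]
    calc θ ^ B2 * Real.log X ^ B2 ≤ θ ^ B2 * ((θ ^ B2)⁻¹ * X ^ (η / 4)) :=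
          mul_le_mul_of_nonneg_left hX (by positivity)
      _ = X ^ (η / 4) := by field_simp
  obtain ⟨X1, hX1'⟩ := eventually_atTop.1 hlog
  refine ⟨2 * (C2' * (2 * 2)) + 2 * (C1 * 2), κ, max X1 A₀, by positivity, hκ, ?_⟩
  intro γ hγ X N hX hX2 hN1 hN2 hN
  have hE' : S_EUL γ.D := by rw [hγ]; exact hE
  have hκ0 : 0 < κ := by linarith
  obtain ⟨C2, hC2d⟩ : ∃ C2 : ℝ, C2 = C2' * κ ^ γ.S.card := ⟨_, rfl⟩
  have hC2 : 0 < C2 := by rw [hC2d]; positivity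
  have hX0 : 0 < X := by linarith
  have hX1 : 1 ≤ X := by linarith
  have hN0 : (0 : ℝ) < N := by exact_mod_cast hN
  have hN1' : (1 : ℝ) ≤ N := by exact_mod_cast hN
  set A : ℝ := X ^ θ with hA
  have hXA : X ≤ A := by
    rw [hA]
    calc X = X ^ (1 : ℝ) := (Real.rpow_one X).symm
      _ ≤ X ^ θ := Real.rpow_le_rpow_of_exponent_le hX1 hθ
  have hA0 : 0 < A := by linarith
  have hAk : A ^ k = X ^ (k * θ) := by
    rw [hA, ← Real.rpow_natCast, ← Real.rpow_mul hX0.le]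
    congr 1; ring
  have hη1 : η ≤ 1 / 2 := by
    rw [hη]
    apply one_div_le_one_div_of_le (by norm_num)
    have : (2 : ℕ) ≤ m := by omega
    exact_mod_cast this
  -- sizes
  have hB : (N : ℝ) ^ B1 ≤ A := by
    calc (N : ℝ) ^ B1 ≤ (X ^ η) ^ B1 := pow_le_pow_left₀ hN0.le hN2 _
      _ = X ^ (η * B1) := by rw [← Real.rpow_natCast, ← Real.rpow_mul hX0.le]
      _ ≤ X ^ (1 : ℝ) := by
          apply Real.rpow_le_rpow_of_exponent_le hX1
          rw [hη, one_div, inv_mul_le_iff₀ hm0, mul_one]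
          exact_mod_cast (by omega : B1 ≤ m)
      _ = X := Real.rpow_one X
      _ ≤ A := hXA
  have hY : (N : ℝ) ≤ A ^ (1 / 2 : ℝ) := by
    refine hN2.trans ?_
    calc X ^ η ≤ X ^ (1 / 2 : ℝ) := Real.rpow_le_rpow_of_exponent_le hX1 hη1
      _ ≤ A ^ (1 / 2 : ℝ) := Real.rpow_le_rpow hX0.le hXA (by norm_num)
  have hneg : ∀ c : ℝ, 0 ≤ c → c ≤ 1 → (N : ℝ) ^ (-c) ≤ 2 * X ^ (-(c * η)) := by
    intro c hc hc1
    have h1 : (N : ℝ) ^ (-c) ≤ (X ^ η / 2) ^ (-c) :=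
      Real.rpow_le_rpow_of_nonpos (by positivity) hN1 (by linarith)
    refine h1.trans ?_
    rw [Real.div_rpow (by positivity) (by norm_num), ← Real.rpow_mul hX0.le, div_eq_mul_inv,
      ← Real.rpow_neg (by norm_num), neg_neg, mul_comm]
    have h2 : (2 : ℝ) ^ c ≤ 2 := by
      calc (2 : ℝ) ^ c ≤ 2 ^ (1 : ℝ) := Real.rpow_le_rpow_of_exponent_le (by norm_num) hc1
        _ = 2 := Real.rpow_one 2
    have h3 : η * -c = -(c * η) := by ring
    rw [h3]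
    exact mul_le_mul_of_nonneg_right h2 (by positivity)
  have hM1 : 1 ≤ N ^ k := Nat.one_le_pow _ _ hN
  have z1 := hZ γ hγ A N (N ^ k) (le_trans (le_trans (le_max_right _ _) hX) hXA) hN hM1 hY
  rw [← hC2d] at z1
  have z2 := hC γ A N hN hB
  -- numbers
  have hl0 : 0 ≤ Real.log A := Real.log_nonneg (by linarith)
  have n1 : Real.log A ^ B2 ≤ X ^ (η / 4) := by
    rw [hA, Real.log_rpow hX0]
    exact hX1' X (le_trans (le_max_left _ _) hX)
  have n2 : (N : ℝ) ^ (-1 : ℝ) ≤ 2 * X ^ (-(η / 2)) := by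
    refine (hneg 1 (by norm_num) le_rfl).trans ?_
    apply mul_le_mul_of_nonneg_left _ (by norm_num)
    apply Real.rpow_le_rpow_of_exponent_le hX1
    linarith
  have n3 : (((N ^ k : ℕ)) : ℝ) ^ (-(1 / 2) : ℝ) ≤ 2 * X ^ (-(η / 2)) := by
    have h1 : (((N ^ k : ℕ)) : ℝ) ^ (-(1 / 2) : ℝ) ≤ (N : ℝ) ^ (-(1 / 2) : ℝ) := by
      apply Real.rpow_le_rpow_of_nonpos hN0 _ (by norm_num)
      push_cast
      exact le_self_pow₀ hN1' (by omega)
    refine h1.trans ((hneg (1 / 2) (by norm_num) (by norm_num)).trans (le_of_eq ?_))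
    congr 2; ring
  have n4 : (N : ℝ) ^ (-(1 / 4) : ℝ) ≤ 2 * X ^ (-(η / 4)) := by
    refine (hneg (1 / 4) (by norm_num) (by norm_num)).trans (le_of_eq ?_)
    congr 2; ring
  have hX4 : X ^ (η / 4) * X ^ (-(η / 2)) = X ^ (-(η / 4)) := by
    rw [← Real.rpow_add hX0]; congr 1; ring
  have hXk : X ^ (k * θ) * X ^ (-(η / 4)) = X ^ (k * θ - 1 / (4 * m)) := by
    rw [← Real.rpow_add hX0]; congr 1; rw [hη]; field_simp
    ring
  have b1 : C2 * Real.log A ^ B2 * A ^ k * ((N : ℝ) ^ (-1 : ℝ) + (((N ^ k : ℕ)) : ℝ) ^ (-(1 / 2) : ℝ)) ≤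
      C2 * (2 * 2) * X ^ (k * θ - 1 / (4 * m)) := by
    calc C2 * Real.log A ^ B2 * A ^ k * ((N : ℝ) ^ (-1 : ℝ) + (((N ^ k : ℕ)) : ℝ) ^ (-(1 / 2) : ℝ))
        ≤ C2 * X ^ (η / 4) * X ^ (k * θ) * (2 * X ^ (-(η / 2)) + 2 * X ^ (-(η / 2))) := by
          rw [hAk]
          gcongr
      _ = C2 * (2 * 2) * (X ^ (k * θ) * (X ^ (η / 4) * X ^ (-(η / 2)))) := by ring
      _ = _ := by rw [hX4, hXk]
  have b2 : C1 * A ^ k * (N : ℝ) ^ (-(1 / 4) : ℝ) ≤ C1 * 2 * X ^ (k * θ - 1 / (4 * m)) := by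
    calc C1 * A ^ k * (N : ℝ) ^ (-(1 / 4) : ℝ) ≤ C1 * X ^ (k * θ) * (2 * X ^ (-(η / 4))) := by
          rw [hAk]
          gcongr
      _ = C1 * 2 * (X ^ (k * θ) * X ^ (-(η / 4))) := by ring
      _ = _ := by rw [hXk]
  set P : (Fin k → ℝ) → ℂ := fun β =>
    (∑ m ∈ Finset.Icc 1 (N ^ k), al γ β m) * ∏ r : Pr k, zN N (pp β r) with hP
  have mP : Measurable P :=
    (Finset.measurable_sum _ fun m _ => meas_al γ m).mul (Finset.measurable_prod _ fun r _ => meas_zN N r)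
  have key := lint_add_sq (μ := (mS k A).restrict (Gd k A)) (f := fun β => -(MT γ (im β) - P β))
    (g := fun β => -(P β - SN γ k N β)) (h := fun β => SN γ k N β - MT γ (im β))
    ((meas_MT γ hE').sub mP).neg (mP.sub (meas_SN γ N)).neg
    (a := C2 * (2 * 2) * X ^ (k * θ - 1 / (4 * m))) (b := C1 * 2 * X ^ (k * θ - 1 / (4 * m)))
    (by positivity) (by positivity) (by
      simp only [norm_neg]
      exact z1.trans (ENNReal.ofReal_le_ofReal b1)) (by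
      simp only [norm_neg]
      refine (lintegral_mono' Measure.restrict_le_self le_rfl).trans ?_
      exact z2.trans (ENNReal.ofReal_le_ofReal b2)) (fun β => by ring)
  refine key.trans (ENNReal.ofReal_le_ofReal ?_)
  have hXp : 0 < X ^ (k * θ - 1 / (4 * m)) := by positivity
  have hκ1 : 1 ≤ κ ^ γ.S.card := one_le_pow₀ hκ
  have e9 : (2 * (C2' * (2 * 2)) + 2 * (C1 * 2)) * κ ^ γ.S.card * X ^ (k * θ - 1 / (4 * m)) =
      2 * (C2 * (2 * 2) * X ^ (k * θ - 1 / (4 * m))) + 2 * (C1 * 2) * (κ ^ γ.S.card * X ^ (k * θ - 1 / (4 * m))) := by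
    rw [hC2d]
    ring
  rw [e9]
  have h9 : X ^ (k * θ - 1 / (4 * m)) ≤ κ ^ γ.S.card * X ^ (k * θ - 1 / (4 * m)) :=
    le_mul_of_one_le_left hXp.le hκ1
  have h10 := mul_le_mul_of_nonneg_left h9 (by positivity : 0 ≤ 2 * (C1 * 2))
  linarith

end

end Pool.Agent.J4.H50.EH
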