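import Pool.Agent.J4.H50.EH.App
import Pool.Agent.J4.H50.EA.W10

set_option autoImplicit false

/-! The weighted moments and the main terms with general local densities. -/

namespace Pool.Agent.J4.H50.EH

open Complex hiding im
open Filter Topology MeasureTheory Set
open Pool.Agent.N879.QM hiding meas_gA meas_al meas_Ak meas_MT meas_SN E3
open Pool.Agent.J4.H50.EA

noncomputable section

variable {k : ℕ}

open Classical in
/-- the truncated diagonal sum -/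
def DS (γ : Gm) (k Y : ℕ) (β : Fin k → ℝ) : ℂ :=
  ∑ n ∈ (tup k Y).filter (fun n => pr n ≤ Y), if IsSquare (pr n) then (af γ (pr n) : ℂ) * cx n β else 0

lemma cx_cont {N : ℕ} {n : Fin k → ℕ} (hn : n ∈ tup k N) : Continuous fun β : Fin k → ℝ => cx n β := by
  have h1 : (fun β => cx n β) = fun β => ((((pr n : ℕ) : ℝ) ^ (-(1 / 2) : ℝ) : ℝ) : ℂ) * FLp.chr n β := by
    ext β
    exact cx_eq hn β
  rw [h1]
  exact continuous_const.mul (FLp.ch_cont hn)

lemma DS_cont (γ : Gm) (k Y : ℕ) : Continuous (DS γ k Y) := by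
  classical
  unfold DS
  refine continuous_finsetSum _ fun n hn => ?_
  split_ifs
  · exact continuous_const.mul (cx_cont (Finset.mem_filter.1 hn).1)
  · exact continuous_const

lemma SN_cont (γ : Gm) (k N : ℕ) : Continuous (SN γ k N) := by
  classical
  unfold SN
  refine continuous_finsetSum _ fun n hn => ?_
  split_ifs
  · exact continuous_const.mul (cx_cont hn)
  · exact continuous_const

lemma af_sm (γ : Gm) (n : ℕ) : ‖(af γ n : ℂ)‖ ≤ 1 := by
  rw [Complex.norm_real, Real.norm_of_nonneg (Coef.af_nonneg γ n)]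
  exact Coef.af_le_one γ n

/-- the two truncations of the diagonal sum -/
theorem DS_SN (hk : 1 ≤ k) : ∃ C : ℝ, 0 < C ∧ ∀ (γ : Gm) (A : ℝ) (N : ℕ), 1 ≤ N → 0 < A →
    ∫ β, ‖DS γ k (N ^ k) β - SN γ k N β‖ ^ 2 ∂(mS k A) ≤
      C * (2 * A) ^ k * ((N : ℝ) ^ (-(9 / 25) : ℝ) + ((N ^ k : ℕ) : ℝ) ^ (2 * k + 1) / A) := by
  classical
  obtain ⟨Cs, hCs, hsum⟩ := Pool.Agent.N879.QM.Coef.sumsq k
  refine ⟨Cs + 2, by positivity, fun γ A N hN hA => ?_⟩
  obtain ⟨Y, hY⟩ : ∃ Y : ℕ, Y = N ^ k := ⟨_, rfl⟩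
  rw [← hY]
  have hY1 : 1 ≤ Y := by rw [hY]; exact Nat.one_le_pow _ _ hN
  have hNY : N ≤ Y := by rw [hY]; exact Nat.le_self_pow (by omega) N
  have hN0 : (0 : ℝ) < N := by exact_mod_cast hN
  obtain ⟨T, hT⟩ : ∃ T : Finset (Fin k → ℕ), T = (tup k Y).filter (fun n => pr n ≤ Y) := ⟨_, rfl⟩
  have hsub : tup k N ⊆ T := by
    intro n hn
    rw [hT, Finset.mem_filter, mem_tup]
    rw [mem_tup] at hn
    refine ⟨fun j => ⟨(hn j).1, (hn j).2.trans hNY⟩, ?_⟩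
    rw [hY]
    unfold pr
    calc ∏ j, n j ≤ ∏ _j : Fin k, N := Finset.prod_le_prod' fun j _ => (hn j).2
      _ = N ^ k := by rw [Finset.prod_const, Finset.card_univ, Fintype.card_fin]
  obtain ⟨ee, hee⟩ : ∃ ee : (Fin k → ℕ) → ℂ, ee = fun n =>
    if n ∈ T \ tup k N ∧ IsSquare (pr n) then (af γ (pr n) : ℂ) * ((((pr n : ℕ) : ℝ) ^ (-(1 / 2) : ℝ) : ℝ) : ℂ)
      else 0 := ⟨_, rfl⟩
  have hTsub : T \ tup k N ⊆ tup k Y := by
    intro n hn
    rw [Finset.mem_sdiff, hT, Finset.mem_filter] at hn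
    exact hn.1.1
  have e1 : ∀ β, DS γ k Y β - SN γ k N β = ∑ n ∈ tup k Y, ee n * FLp.chr n β := by
    intro β
    have e2 : DS γ k Y β = ∑ n ∈ T, if IsSquare (pr n) then (af γ (pr n) : ℂ) * cx n β else 0 := by
      rw [hT]
      rfl
    have e3 : SN γ k N β = ∑ n ∈ tup k N, if IsSquare (pr n) then (af γ (pr n) : ℂ) * cx n β else 0 := by
      unfold SN pr
      rfl
    rw [e2, e3, ← Finset.sum_sdiff hsub, add_sub_cancel_right, ← Finset.sum_subset hTsub]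
    · refine Finset.sum_congr rfl fun n hn => ?_
      rw [hee]
      simp only
      by_cases h : IsSquare (pr n)
      · rw [if_pos h, if_pos ⟨hn, h⟩, cx_eq (hTsub hn)]
        ring
      · rw [if_neg h, if_neg fun h2 => h h2.2, zero_mul]
    · intro n _ hn
      rw [hee]
      simp only
      rw [if_neg fun h2 => hn h2.1, zero_mul]
  have hb := FL2 k Y A ee hY1 hA
  simp only [← e1] at hb
  have hb1 := (abs_le.1 hb).2
  -- the sum of the squares
  have hee1 : ∀ n ∈ tup k Y, ‖ee n‖ ≤ 1 := by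
    intro n hn
    rw [hee]
    simp only
    split_ifs
    · have h1 : (1 : ℝ) ≤ pr n := by exact_mod_cast one_le_pr hn
      rw [norm_mul, Complex.norm_real (((pr n : ℕ) : ℝ) ^ (-(1 / 2) : ℝ)), Real.norm_of_nonneg (by positivity)]
      exact mul_le_one₀ (af_sm γ _) (by positivity) (Real.rpow_le_one_of_one_le_of_nonpos h1 (by norm_num))
    · rw [norm_zero]
      exact zero_le_one
  have s1 : ∑ n ∈ tup k Y, ‖ee n‖ ^ 2 ≤ Cs * (N : ℝ) ^ (-(9 / 25) : ℝ) := by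
    have h1 : ∀ n ∈ tup k Y, ‖ee n‖ ^ 2 ≤ if IsSquare (∏ j, n j) then
        (N : ℝ) ^ (-(9 / 25) : ℝ) * Pool.Agent.N879.QM.Coef.PP n ^ (-(16 / 25) : ℝ) else 0 := by
      intro n hn
      rw [hee]
      simp only
      by_cases h : n ∈ T \ tup k N ∧ IsSquare (pr n)
      · have h2 : IsSquare (∏ j, n j) := h.2
        rw [if_pos h, if_pos h2]
        have hp : (1 : ℝ) ≤ pr n := by exact_mod_cast one_le_pr hn
        have hp0 : (0 : ℝ) < pr n := by linarith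
        have hNp : (N : ℝ) ≤ pr n := by
          have h3 : n ∉ tup k N := (Finset.mem_sdiff.1 h.1).2
          rw [mem_tup] at h3
          push Not at h3
          obtain ⟨j, hj⟩ := h3
          have h4 := hj (mem_tup.1 hn j).1
          have h5 : n j ≤ pr n := Nat.le_of_dvd (one_le_pr hn) (Finset.dvd_prod_of_mem n (Finset.mem_univ j))
          exact_mod_cast (h4.le.trans h5)
        have e5 : Pool.Agent.N879.QM.Coef.PP n = (pr n : ℝ) := rfl
        rw [norm_mul, mul_pow, Complex.norm_real (((pr n : ℕ) : ℝ) ^ (-(1 / 2) : ℝ)),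
          Real.norm_of_nonneg (by positivity), e5]
        have h6 : (((pr n : ℕ) : ℝ) ^ (-(1 / 2) : ℝ)) ^ 2 = ((pr n : ℕ) : ℝ) ^ (-(9 / 25) : ℝ) *
            ((pr n : ℕ) : ℝ) ^ (-(16 / 25) : ℝ) := by
          rw [← Real.rpow_natCast, ← Real.rpow_mul hp0.le, ← Real.rpow_add hp0]
          norm_num
        rw [h6]
        have h7 : ‖(af γ (pr n) : ℂ)‖ ^ 2 ≤ 1 := pow_le_one₀ (norm_nonneg _) (af_sm γ _)
        have h8 : ((pr n : ℕ) : ℝ) ^ (-(9 / 25) : ℝ) ≤ (N : ℝ) ^ (-(9 / 25) : ℝ) :=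
          Real.rpow_le_rpow_of_nonpos hN0 hNp (by norm_num)
        calc ‖(af γ (pr n) : ℂ)‖ ^ 2 * (((pr n : ℕ) : ℝ) ^ (-(9 / 25) : ℝ) * ((pr n : ℕ) : ℝ) ^ (-(16 / 25) : ℝ))
            ≤ 1 * ((N : ℝ) ^ (-(9 / 25) : ℝ) * ((pr n : ℕ) : ℝ) ^ (-(16 / 25) : ℝ)) :=
              mul_le_mul h7 (mul_le_mul_of_nonneg_right h8 (by positivity)) (by positivity) zero_le_one
          _ = _ := one_mul _
      · rw [if_neg h, norm_zero, zero_pow two_ne_zero]
        split_ifs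
        · have := Pool.Agent.N879.QM.Coef.one_le_PP (n := n) (fun j => (mem_tup.1 hn j).1)
          positivity
        · exact le_rfl
    refine (Finset.sum_le_sum h1).trans ?_
    rw [← Finset.sum_filter, ← Finset.mul_sum, mul_comm]
    exact mul_le_mul_of_nonneg_right (hsum Y) (by positivity)
  have s2 : (∑ n ∈ tup k Y, ‖ee n‖) ^ 2 ≤ ((Y : ℝ) ^ k) ^ 2 := by
    refine pow_le_pow_left₀ (Finset.sum_nonneg fun _ _ => norm_nonneg _) ?_ 2
    refine (Finset.sum_le_sum hee1).trans ?_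
    rw [Finset.sum_const, tup_card, nsmul_eq_mul]
    push_cast
    rw [mul_one]
  have s3 : (2 * A) ^ (k - 1 : ℝ) * (2 * A) = (2 * A) ^ k := by
    rw [← Real.rpow_natCast]
    nth_rewrite 2 [← Real.rpow_one (2 * A)]
    rw [← Real.rpow_add (by positivity)]
    congr 1
    ring
  have hP : 0 < (2 * A) ^ (k - 1 : ℝ) := Real.rpow_pos_of_pos (by linarith) _
  have hV : 0 < (2 * A) ^ k := by positivity
  have s4 : 4 * (Y : ℝ) * (2 * A) ^ (k - 1 : ℝ) * (∑ n ∈ tup k Y, ‖ee n‖) ^ 2 ≤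
      (2 * A) ^ k * (2 * ((Y : ℝ) ^ (2 * k + 1) / A)) := by
    calc 4 * (Y : ℝ) * (2 * A) ^ (k - 1 : ℝ) * (∑ n ∈ tup k Y, ‖ee n‖) ^ 2
        ≤ 4 * (Y : ℝ) * (2 * A) ^ (k - 1 : ℝ) * ((Y : ℝ) ^ k) ^ 2 := mul_le_mul_of_nonneg_left s2 (by positivity)
      _ = ((2 * A) ^ (k - 1 : ℝ) * (2 * A)) * (2 * ((Y : ℝ) ^ (2 * k + 1) / A)) := by
          field_simp
          ring
      _ = _ := by rw [s3]
  have s5 := mul_le_mul_of_nonneg_left s1 hV.le
  have h9 : 0 ≤ (N : ℝ) ^ (-(9 / 25) : ℝ) := by positivity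
  have h10 : 0 ≤ (Y : ℝ) ^ (2 * k + 1) / A := by positivity
  have h11 : 0 ≤ (2 * A) ^ k * (2 * (N : ℝ) ^ (-(9 / 25) : ℝ)) := by positivity
  have h12 : 0 ≤ (2 * A) ^ k * (Cs * ((Y : ℝ) ^ (2 * k + 1) / A)) := by positivity
  have e6 : (Cs + 2) * (2 * A) ^ k * ((N : ℝ) ^ (-(9 / 25) : ℝ) + (Y : ℝ) ^ (2 * k + 1) / A) =
      (2 * A) ^ k * (Cs * (N : ℝ) ^ (-(9 / 25) : ℝ)) + (2 * A) ^ k * (2 * ((Y : ℝ) ^ (2 * k + 1) / A)) +
      (2 * A) ^ k * (2 * (N : ℝ) ^ (-(9 / 25) : ℝ)) + (2 * A) ^ k * (Cs * ((Y : ℝ) ^ (2 * k + 1) / A)) := by ring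
  rw [e6]
  linarith

/-- from the real integral to the integral over a subset -/
lemma to_lint {A B : ℝ} {f : (Fin k → ℝ) → ℂ} (hf : Continuous f) (h : ∫ β, ‖f β‖ ^ 2 ∂(mS k A) ≤ B)
    (G : Set (Fin k → ℝ)) :
    ∫⁻ β in G, ENNReal.ofReal (‖f β‖ ^ 2) ∂(mS k A) ≤ ENNReal.ofReal B := by
  refine (lintegral_mono' Measure.restrict_le_self le_rfl).trans ?_
  have i1 : Integrable (fun β => ‖f β‖ ^ 2) (mS k A) := int_cont (hf.norm.pow 2)
  rw [← ofReal_integral_eq_lintegral_ofReal i1 (ae_of_all _ fun _ => sq_nonneg _)]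
  exact ENNReal.ofReal_le_ofReal h

end

end Pool.Agent.J4.H50.EH
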