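import Pool.Agent.J4.H50.EH.L3

set_option autoImplicit false

/-! Discriminants with prescribed character values: correlations. -/

namespace Pool.Agent.J4.H50.EH

open Complex hiding im
open Filter Topology MeasureTheory Set
open Pool.Agent.N879.QM hiding meas_gA meas_al meas_Ak meas_MT meas_SN E3 MT af SN S_COEF S_ZR S_EUL
open Pool.Agent.J4.H50.EA

noncomputable section

open Classical in
/-- the indicator function of the prescribed values -/
def cl (S : Finset ℕ) (ε : ℕ → ℤ) (s : ℤ) (q : ℕ) : ℂ := if ∀ l ∈ S, vl s q l = (ε l : ℂ) then 1 else 0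

lemma cl_le (S : Finset ℕ) (ε : ℕ → ℤ) (s : ℤ) (q : ℕ) : ‖cl S ε s q‖ ≤ 1 := by
  unfold cl
  split_ifs
  · rw [norm_one]
  · rw [norm_zero]
    exact zero_le_one

/-- the local densities -/
def dens (e : ℤ) (l : ℕ) : ℝ := if e = 0 then 1 / (l + 1) else l / (2 * (l + 1))

lemma dens_pos (e : ℤ) {l : ℕ} (hl : 1 ≤ l) : 0 < dens e l := by
  have h : (0 : ℝ) < l := by exact_mod_cast hl
  unfold dens
  split_ifs <;> positivity

lemma dens_le (e : ℤ) (l : ℕ) : dens e l ≤ 1 := by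
  have h : (0 : ℝ) ≤ l := Nat.cast_nonneg l
  unfold dens
  split_ifs
  · rw [div_le_one (by positivity)]
    linarith
  · rw [div_le_one (by positivity)]
    linarith

lemma dens_ge (e : ℤ) {l : ℕ} (hl : 2 ≤ l) : 1 / (2 * l : ℝ) ≤ dens e l := by
  have h : (2 : ℝ) ≤ l := by exact_mod_cast hl
  unfold dens
  split_ifs
  · apply one_div_le_one_div_of_le (by positivity)
    linarith
  · rw [div_le_div_iff₀ (by positivity) (by positivity)]
    nlinarith

/-- the density -/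
def rho (S : Finset ℕ) (ε : ℕ → ℤ) : ℝ := ∏ l ∈ S, dens (ε l) l

lemma rho_pos {S : Finset ℕ} {ε : ℕ → ℤ} (hS : ∀ p ∈ S, p.Prime) : 0 < rho S ε :=
  Finset.prod_pos fun l hl => dens_pos _ (hS l hl).one_le

lemma rho_le {S : Finset ℕ} {ε : ℕ → ℤ} (hS : ∀ p ∈ S, p.Prime) : rho S ε ≤ 1 := by
  unfold rho
  exact Finset.prod_le_one (fun l hl => (dens_pos _ (hS l hl).one_le).le) fun l _ => dens_le _ l

lemma two_mul_PS {S : Finset ℕ} (hS : ∀ p ∈ S, p.Prime) : ∏ l ∈ S, (2 * l : ℝ) ≤ (PS S : ℝ) ^ 2 := by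
  rw [Finset.prod_mul_distrib, Finset.prod_const, sq]
  have h1 := two_le_PS hS
  have e : ∏ l ∈ S, (l : ℝ) = PS S := by
    unfold PS
    push_cast
    rfl
  rw [e]
  exact mul_le_mul_of_nonneg_right h1 (Nat.cast_nonneg _)

lemma rho_ge {S : Finset ℕ} {ε : ℕ → ℤ} (hS : ∀ p ∈ S, p.Prime) : 1 / (PS S : ℝ) ^ 2 ≤ rho S ε := by
  have h1 : ∏ l ∈ S, (1 / (2 * l : ℝ)) ≤ rho S ε :=
    Finset.prod_le_prod (fun _ _ => by positivity) fun l hl => dens_ge _ (hS l hl).two_le
  refine le_trans ?_ h1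
  have h2 : ∏ l ∈ S, (1 / (2 * l : ℝ)) = 1 / ∏ l ∈ S, (2 * l : ℝ) := by
    simp only [one_div, Finset.prod_inv_distrib]
  rw [h2]
  refine one_div_le_one_div_of_le ?_ (two_mul_PS hS)
  exact Finset.prod_pos fun l hl => by
    have : (0 : ℝ) < l := by exact_mod_cast (hS l hl).pos
    positivity

/-- the values are `0, 1, -1` -/
lemma vl_tri {s : ℤ} {q : ℕ} (h : Is s q) (l : ℕ) : vl s q l = 0 ∨ vl s q l = 1 ∨ vl s q l = -1 := by
  obtain ⟨-, h2, -, -⟩ := Pool.Agent.N879.QM.ch_spec h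
  unfold vl
  by_cases hu : IsUnit (l : ZMod q)
  · right
    obtain ⟨u, hu⟩ := hu
    rw [← hu]
    have h3 : (ch s q) (u : ZMod q) ^ 2 = 1 := by
      rw [← MulChar.pow_apply_coe, h2, MulChar.one_apply_coe]
    have h4 : ((ch s q) (u : ZMod q) - 1) * ((ch s q) (u : ZMod q) + 1) = 0 := by linear_combination h3
    rcases mul_eq_zero.1 h4 with h5 | h5
    · exact Or.inl (by linear_combination h5)
    · exact Or.inr (by linear_combination h5)
  · left
    exact MulChar.map_nonunit _ hu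

lemma vl_mul (s : ℤ) (q a b : ℕ) : vl s q (a * b) = vl s q a * vl s q b := by
  unfold vl
  rw [Nat.cast_mul, map_mul]

/-- one more prescribed value -/
lemma Sc_insert {S : Finset ℕ} {ε : ℕ → ℤ} {l : ℕ} (hε : ε l = 1 ∨ ε l = -1 ∨ ε l = 0) (s : ℤ) (X : ℝ) (n : ℕ) :
    Sc s X (cl (insert l S) ε s) n = if ε l = 0 then Sc s X (cl S ε s) n - Sc s X (cl S ε s) (n * l ^ 2) else
      1 / 2 * (Sc s X (cl S ε s) (n * l ^ 2) + ε l * Sc s X (cl S ε s) (n * l)) := by
  classical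
  have key : ∀ q ∈ Q s X, cl (insert l S) ε s q * vl s q n = if ε l = 0 then
      cl S ε s q * vl s q n - cl S ε s q * vl s q (n * l ^ 2) else
      1 / 2 * (cl S ε s q * vl s q (n * l ^ 2) + ε l * (cl S ε s q * vl s q (n * l))) := by
    intro q hq
    have hI := (Q_is hq).1
    have e1 : vl s q (n * l ^ 2) = vl s q n * vl s q l ^ 2 := by
      rw [vl_mul, sq, vl_mul, sq]
    have e2 : vl s q (n * l) = vl s q n * vl s q l := vl_mul _ _ _ _
    rw [e1, e2]
    unfold cl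
    by_cases h : ∀ m ∈ S, vl s q m = (ε m : ℂ)
    · simp only [if_pos h]
      by_cases h2 : vl s q l = (ε l : ℂ)
      · rw [if_pos (by
          intro m hm
          rcases Finset.mem_insert.1 hm with rfl | hm
          · exact h2
          · exact h m hm), h2]
        rcases hε with h3 | h3 | h3 <;> rw [h3]
        · rw [if_neg one_ne_zero]
          push_cast
          ring
        · rw [if_neg (by norm_num)]
          push_cast
          ring
        · rw [if_pos rfl]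
          push_cast
          ring
      · rw [if_neg (fun h3 => h2 (h3 l (Finset.mem_insert_self _ _)))]
        rcases hε with h3 | h3 | h3 <;> rw [h3] at h2 ⊢ <;> rcases vl_tri hI l with h4 | h4 | h4 <;> rw [h4] at h2 ⊢
        · rw [if_neg one_ne_zero]; push_cast; ring
        · exact absurd (by push_cast; rfl) h2
        · rw [if_neg one_ne_zero]; push_cast; ring
        · rw [if_neg (by norm_num)]; push_cast; ring
        · rw [if_neg (by norm_num)]; push_cast; ring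
        · exact absurd (by push_cast; rfl) h2
        · exact absurd (by push_cast; rfl) h2
        · rw [if_pos rfl]; ring
        · rw [if_pos rfl]; ring
    · simp only [if_neg h]
      rw [if_neg (fun h3 => h fun m hm => h3 m (Finset.mem_insert_of_mem hm))]
      split_ifs <;> ring
  unfold Sc
  rw [Finset.sum_congr rfl key]
  split_ifs
  · rw [Finset.sum_sub_distrib]
  · rw [← Finset.mul_sum, Finset.sum_add_distrib, Finset.mul_sum]

lemma isSquare_mul_sq_iff {n l : ℕ} (hl : l ≠ 0) : IsSquare (n * l ^ 2) ↔ IsSquare n := by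
  constructor
  · rintro ⟨a, ha⟩
    have h1 : l ^ 2 ∣ a ^ 2 := by
      rw [sq a, ← ha]
      exact Dvd.intro_left n rfl
    have h2 : l ∣ a := (Nat.pow_dvd_pow_iff two_ne_zero).1 h1
    obtain ⟨b, rfl⟩ := h2
    refine ⟨b, ?_⟩
    have h3 : 0 < l ^ 2 := by positivity
    apply Nat.eq_of_mul_eq_mul_right h3
    rw [ha]
    ring
  · rintro ⟨a, rfl⟩
    exact ⟨a * l, by ring⟩

lemma not_isSquare_mul {n l : ℕ} (hl : l.Prime) (hn : ¬ l ∣ n) : ¬ IsSquare (n * l) := by
  rintro ⟨a, ha⟩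
  have h1 : l ∣ a := by
    have : l ∣ a * a := by
      rw [← ha]
      exact Dvd.intro_left n rfl
    rcases hl.dvd_mul.1 this with h | h <;> exact h
  obtain ⟨b, rfl⟩ := h1
  apply hn
  refine ⟨b * b, ?_⟩
  apply Nat.eq_of_mul_eq_mul_right hl.pos
  rw [ha]
  ring

lemma af_mul_sq {n l : ℕ} (hl : l.Prime) (hn : ¬ l ∣ n) :
    Pool.Agent.N879.QM.af (n * l ^ 2) = Pool.Agent.N879.QM.af n * (l / (l + 1)) := by
  unfold Pool.Agent.N879.QM.af
  have hc : Nat.Coprime n (l ^ 2) := (Nat.Coprime.pow_left 2 ((Nat.Prime.coprime_iff_not_dvd hl).2 hn)).symm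
  rw [hc.primeFactors_mul, Finset.prod_union hc.disjoint_primeFactors, Nat.primeFactors_prime_pow two_ne_zero hl,
    Finset.prod_singleton]

lemma afn_nonneg (n : ℕ) : 0 ≤ Pool.Agent.N879.QM.af n := by
  unfold Pool.Agent.N879.QM.af
  exact Finset.prod_nonneg fun p _ => by positivity

/-- the correlations -/
theorem Sc_cl {C : ℝ} (hC : 0 < C) (hA : ∀ (s : ℤ) (X : ℝ) (n : ℕ), s = 1 ∨ s = -1 → 1 ≤ X → 1 ≤ n →
    (IsSquare n → ‖(∑ q ∈ Q s X, vl s q n) - ((c0 * X * Pool.Agent.N879.QM.af n : ℝ) : ℂ)‖ ≤ C * √X * √n) ∧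
    (¬ IsSquare n → ‖∑ q ∈ Q s X, vl s q n‖ ≤ C * √X * √n)) (ε : ℕ → ℤ) (S : Finset ℕ) :
    (∀ l ∈ S, l.Prime) → (∀ l ∈ S, ε l = 1 ∨ ε l = -1 ∨ ε l = 0) → ∀ (s : ℤ) (X : ℝ) (n : ℕ), s = 1 ∨ s = -1 → 1 ≤ X →
      1 ≤ n → (∀ l ∈ S, ¬ l ∣ n) →
    (IsSquare n → ‖Sc s X (cl S ε s) n - ((c0 * X * rho S ε * Pool.Agent.N879.QM.af n : ℝ) : ℂ)‖ ≤
      C * (∏ l ∈ S, (2 * l : ℝ)) * √X * √n) ∧
    (¬ IsSquare n → ‖Sc s X (cl S ε s) n‖ ≤ C * (∏ l ∈ S, (2 * l : ℝ)) * √X * √n) := by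
  classical
  refine Finset.induction_on S ?_ ?_
  · intro _ _ s X n hs hX hn _
    have e1 : Sc s X (cl ∅ ε s) n = ∑ q ∈ Q s X, vl s q n := by
      unfold Sc cl
      refine Finset.sum_congr rfl fun q _ => ?_
      rw [if_pos (fun l hl => absurd hl (Finset.notMem_empty _)), one_mul]
    have h := hA s X n hs hX hn
    rw [e1, Finset.prod_empty, mul_one]
    unfold rho
    rw [Finset.prod_empty, mul_one]
    exact h
  · intro l S hl ih hS hε s X n hs hX hn hc
    have hS' : ∀ m ∈ S, m.Prime := fun m hm => hS m (Finset.mem_insert_of_mem hm)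
    have hlp : l.Prime := hS l (Finset.mem_insert_self _ _)
    have hln : ¬ l ∣ n := hc l (Finset.mem_insert_self _ _)
    have ih := ih hS' (fun m hm => hε m (Finset.mem_insert_of_mem hm)) s X
    have hcS : ∀ m ∈ S, ¬ m ∣ n := fun m hm => hc m (Finset.mem_insert_of_mem hm)
    have hml : ∀ m ∈ S, ¬ m ∣ l := by
      intro m hm hd
      have h2 := (Nat.prime_dvd_prime_iff_eq (hS' m hm) hlp).1 hd
      rw [h2] at hm
      exact hl hm
    have c1 : ∀ m ∈ S, ¬ m ∣ n * l := by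
      intro m hm hd
      rcases (hS' m hm).dvd_mul.1 hd with h | h
      · exact hcS m hm h
      · exact hml m hm h
    have c2 : ∀ m ∈ S, ¬ m ∣ n * l ^ 2 := by
      intro m hm hd
      rcases (hS' m hm).dvd_mul.1 hd with h | h
      · exact hcS m hm h
      · exact hml m hm ((hS' m hm).dvd_of_dvd_pow h)
    have hl1 : (1 : ℝ) ≤ l := by exact_mod_cast hlp.one_le
    have hl0 : (0 : ℝ) < l := by linarith
    obtain ⟨E, hE⟩ : ∃ E : ℝ, E = C * (∏ m ∈ S, (2 * m : ℝ)) * √X * √n := ⟨_, rfl⟩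
    have hPr0 : 0 ≤ ∏ m ∈ S, (2 * m : ℝ) := Finset.prod_nonneg fun _ _ => by positivity
    have hE0 : 0 ≤ E := by rw [hE]; positivity
    have eB : C * (∏ m ∈ insert l S, (2 * m : ℝ)) * √X * √n = 2 * l * E := by
      rw [Finset.prod_insert hl, hE]
      ring
    have s1 : C * (∏ m ∈ S, (2 * m : ℝ)) * √X * √((n * l : ℕ) : ℝ) ≤ l * E := by
      have h1 : √((n * l : ℕ) : ℝ) = √n * √l := by
        push_cast
        exact Real.sqrt_mul (Nat.cast_nonneg _) _
      have h2 : √(l : ℝ) ≤ l := by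
        rw [Real.sqrt_le_left (by linarith)]
        nlinarith
      rw [h1]
      have h3 := mul_le_mul_of_nonneg_left h2 hE0
      calc _ = E * √l := by rw [hE]; ring
        _ ≤ E * l := h3
        _ = _ := mul_comm _ _
    have s2 : C * (∏ m ∈ S, (2 * m : ℝ)) * √X * √((n * l ^ 2 : ℕ) : ℝ) = l * E := by
      have h1 : √((n * l ^ 2 : ℕ) : ℝ) = √n * l := by
        push_cast
        rw [Real.sqrt_mul (Nat.cast_nonneg _), Real.sqrt_sq hl0.le]
      rw [h1, hE]
      ring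
    have a0 := ih n hs hX hn hcS
    have a1 := (ih (n * l) hs hX (Nat.mul_pos hn hlp.pos) c1).2 (not_isSquare_mul hlp hln)
    have a2 := ih (n * l ^ 2) hs hX (Nat.mul_pos hn (pow_pos hlp.pos 2)) c2
    rw [isSquare_mul_sq_iff hlp.ne_zero, s2, af_mul_sq hlp hln] at a2
    rw [← hE] at a0
    have a1 := a1.trans s1
    have hrho : rho (insert l S) ε = dens (ε l) l * rho S ε := by
      unfold rho
      rw [Finset.prod_insert hl]
    have hεl := hε l (Finset.mem_insert_self _ _)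
    rw [Sc_insert hεl, hrho, eB]
    obtain ⟨x0, hx0⟩ : ∃ x : ℂ, x = Sc s X (cl S ε s) n := ⟨_, rfl⟩
    obtain ⟨x1, hx1⟩ : ∃ x : ℂ, x = Sc s X (cl S ε s) (n * l) := ⟨_, rfl⟩
    obtain ⟨x2, hx2⟩ : ∃ x : ℂ, x = Sc s X (cl S ε s) (n * l ^ 2) := ⟨_, rfl⟩
    rw [← hx0] at a0 ⊢
    rw [← hx1] at a1 ⊢
    rw [← hx2] at a2 ⊢
    obtain ⟨g, hg⟩ : ∃ g : ℝ, g = Pool.Agent.N879.QM.af n := ⟨_, rfl⟩
    rw [← hg] at a0 a2 ⊢
    have hlC : ((l : ℝ) + 1 : ℂ) ≠ 0 := by
      have : ((l : ℝ) + 1) ≠ 0 := by positivity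
      exact_mod_cast this
    have hlC' : ((l : ℂ) + 1) ≠ 0 := by exact_mod_cast hlC
    have hnE : ‖((ε l : ℤ) : ℂ)‖ ≤ 1 := by
      rcases hεl with h | h | h <;> rw [h] <;> simp
    by_cases h0 : ε l = 0
    · rw [if_pos h0]
      have hd : dens (ε l) l = 1 / (l + 1) := by unfold dens; rw [if_pos h0]
      rw [hd]
      constructor
      · intro hsq
        have b0 := a0.1 hsq
        have b2 := a2.1 hsq
        have e1 : x0 - x2 - ((c0 * X * (1 / (l + 1) * rho S ε) * g : ℝ) : ℂ) =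
            (x0 - ((c0 * X * rho S ε * g : ℝ) : ℂ)) - (x2 - ((c0 * X * rho S ε * (g * (l / (l + 1))) : ℝ) : ℂ)) := by
          push_cast
          field_simp
          ring
        rw [e1]
        refine (norm_sub_le _ _).trans ?_
        nlinarith
      · intro hsq
        have b0 := a0.2 hsq
        have b2 := a2.2 hsq
        refine (norm_sub_le _ _).trans ?_
        nlinarith
    · rw [if_neg h0]
      have hd : dens (ε l) l = l / (2 * (l + 1)) := by unfold dens; rw [if_neg h0]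
      rw [hd]
      have h12 : ‖(1 / 2 : ℂ)‖ = 1 / 2 := by norm_num
      have b1 : ‖(ε l : ℂ) * x1‖ ≤ l * E := by
        rw [norm_mul]
        calc ‖(ε l : ℂ)‖ * ‖x1‖ ≤ 1 * ‖x1‖ := mul_le_mul_of_nonneg_right hnE (norm_nonneg _)
          _ ≤ l * E := by rw [one_mul]; exact a1
      constructor
      · intro hsq
        have b2 := a2.1 hsq
        have e1 : 1 / 2 * (x2 + (ε l : ℂ) * x1) - ((c0 * X * (l / (2 * (l + 1)) * rho S ε) * g : ℝ) : ℂ) =
            1 / 2 * ((x2 - ((c0 * X * rho S ε * (g * (l / (l + 1))) : ℝ) : ℂ)) + (ε l : ℂ) * x1) := by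
          push_cast
          field_simp
          ring
        rw [e1, norm_mul, h12]
        have := norm_add_le (x2 - ((c0 * X * rho S ε * (g * (l / (l + 1))) : ℝ) : ℂ)) ((ε l : ℂ) * x1)
        nlinarith
      · intro hsq
        have b2 := a2.2 hsq
        rw [norm_mul, h12]
        have := norm_add_le x2 ((ε l : ℂ) * x1)
        nlinarith

end

end Pool.Agent.J4.H50.EH
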