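import Pool.Agent.J4.H50.EH.D1

set_option autoImplicit false

/-! Discriminants with prescribed character values: the uniform theorem. -/

namespace Pool.Agent.J4.H50.EH

open Complex hiding im
open Filter Topology MeasureTheory Set
open Pool.Agent.N879.QM hiding meas_gA meas_al meas_Ak meas_MT meas_SN E3 MT af SN S_COEF S_ZR S_EUL
open Pool.Agent.J4.H50.EA

noncomputable section

variable {k : ℕ}

lemma fac_ge {a : ℂ} (ha : ‖a‖ ≤ 1) {p : ℕ} (hp : 2 ≤ p) (t : ℝ) : 1 / 4 ≤ ‖(1 - a * (p : ℂ) ^ (-(pt t)))‖ := by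
  have hp0 : (0 : ℝ) < p := by exact_mod_cast (by omega : 0 < p)
  have h1 : ‖(p : ℂ) ^ (-(pt t))‖ ≤ 3 / 4 := by
    rw [Complex.norm_natCast_cpow_of_pos (by omega)]
    have e1 : (-(pt t)).re = -(1 / 2) := by
      unfold pt
      simp
    rw [e1]
    have h2 : ((p : ℝ) ^ (-(1 / 2) : ℝ)) ^ 2 ≤ (3 / 4) ^ 2 := by
      rw [← Real.rpow_natCast, ← Real.rpow_mul hp0.le]
      norm_num
      rw [Real.rpow_neg_one]
      have h3 : (2 : ℝ) ≤ p := by exact_mod_cast hp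
      have h4 : (p : ℝ)⁻¹ ≤ 2⁻¹ := inv_anti₀ (by norm_num) h3
      linarith
    exact le_of_sq_le_sq h2 (by norm_num)
  have h2 : ‖a * (p : ℂ) ^ (-(pt t))‖ ≤ 3 / 4 := by
    rw [norm_mul]
    calc ‖a‖ * ‖(p : ℂ) ^ (-(pt t))‖ ≤ 1 * (3 / 4) := mul_le_mul ha h1 (norm_nonneg _) zero_le_one
      _ = 3 / 4 := one_mul _
  have h3 := norm_sub_norm_le (1 : ℂ) (a * (p : ℂ) ^ (-(pt t)))
  rw [norm_one] at h3
  linarith

lemma PU_ge {ε : ℕ → ℂ} (hε : ∀ p, ‖ε p‖ ≤ 1) {U : Finset (ℕ × Fin k)} (hU : ∀ v ∈ U, v.1.Prime) (β : Fin k → ℝ) :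
    (1 / 4 : ℝ) ^ U.card ≤ ‖PU ε U β‖ := by
  unfold PU
  rw [norm_prod, ← Finset.prod_const]
  exact Finset.prod_le_prod (fun _ _ => by norm_num) fun u hu => fac_ge (hε _) (hU u hu).two_le _

/-- from the mean square to the measure -/
theorem meas_fin (hN : S_NS) (k : ℕ) : ∃ C : ℝ, 0 < C ∧ ∀ (γ : Gm), S_EUL γ.D → ∀ (ε : ℕ → ℂ), (∀ p, ‖ε p‖ ≤ 1) →
    ∀ (U : Finset (ℕ × Fin k)), (∀ v ∈ U, v.1.Prime) →
    ∀ (A B τ : ℝ) (M : ℂ) (F : (Fin k → ℝ) → ℂ), 1 ≤ A → 0 ≤ B → 0 < τ → Continuous F →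
    ∫⁻ β in Gd k A, ENNReal.ofReal (‖F β * PU ε U β - M * MT γ (im β)‖ ^ 2) ∂(mS k A) ≤ ENNReal.ofReal B →
    mS k A {β | τ < ‖F β - M * (MT γ (im β) / PU ε U β)‖} ≤
      ENNReal.ofReal (C * A ^ (k - 1 / 2 : ℝ) + B / ((1 / 4 : ℝ) ^ U.card * τ) ^ 2) := by
  obtain ⟨C, hC, hN⟩ := hN k
  refine ⟨C, hC, fun γ hE ε hε U hU A B τ M F hA hB hτ hF h => ?_⟩
  have hc : (0 : ℝ) < (1 / 4 : ℝ) ^ U.card := by positivity
  have hsub : {β : Fin k → ℝ | τ < ‖F β - M * (MT γ (im β) / PU ε U β)‖} ⊆ (Gd k A)ᶜ ∪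
      ({β | (1 / 4 : ℝ) ^ U.card * τ < ‖F β * PU ε U β - M * MT γ (im β)‖} ∩ Gd k A) := by
    intro β hβ
    by_cases hG : β ∈ Gd k A
    · right
      refine ⟨?_, hG⟩
      simp only [mem_ofPred_eq] at hβ ⊢
      have h1 := PU_ge hε hU β
      have h2 : 0 < ‖PU ε U β‖ := lt_of_lt_of_le hc h1
      have h3 : PU ε U β ≠ 0 := norm_pos_iff.1 h2
      have e1 : F β * PU ε U β - M * MT γ (im β) = PU ε U β * (F β - M * (MT γ (im β) / PU ε U β)) := by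
        field_simp
      rw [e1, norm_mul]
      exact mul_lt_mul' h1 hβ hτ.le h2
    · left
      exact hG
  refine (measure_mono hsub).trans ((measure_union_le _ _).trans ?_)
  rw [ENNReal.ofReal_add (by positivity) (by positivity)]
  refine add_le_add (hN A hA) ?_
  rw [← Measure.restrict_apply' (Gd_meas k A)]
  have hm : Measurable fun β : Fin k → ℝ => ‖F β * PU ε U β - M * MT γ (im β)‖ :=
    ((hF.mul (PU_cont ε hU)).measurable.sub (measurable_const.mul (meas_MT γ hE))).norm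
  exact cheb (g := fun β => ‖F β * PU ε U β - M * MT γ (im β)‖) hm.aemeasurable (by positivity) h

/-- the symbols as complex numbers -/
def epC (S : Finset ℕ) (ε : ℕ → ℤ) (p : ℕ) : ℂ := if p ∈ S then (ε p : ℂ) else 0

lemma epC_le {S : Finset ℕ} {ε : ℕ → ℤ} (hε : ∀ l ∈ S, ε l = 1 ∨ ε l = -1 ∨ ε l = 0) (p : ℕ) : ‖epC S ε p‖ ≤ 1 := by
  unfold epC
  split_ifs with h
  · rcases hε p h with h1 | h1 | h1 <;> rw [h1] <;> simp
  · rw [norm_zero]
    exact zero_le_one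

lemma Sc_supp {S : Finset ℕ} {ε : ℕ → ℤ} {s : ℤ} {X : ℝ} {c : ℕ → ℂ}
    (h : ∀ q, c q ≠ 0 → ∀ l ∈ S, vl s q l = (ε l : ℂ)) (p : ℕ) (hp : p ∈ S) (n : ℕ) :
    Sc s X c (p * n) = epC S ε p * Sc s X c n := by
  unfold Sc epC
  rw [if_pos hp, Finset.mul_sum]
  refine Finset.sum_congr rfl fun q _ => ?_
  by_cases hq : c q = 0
  · rw [hq]
    ring
  · have e1 : vl s q (p * n) = vl s q p * vl s q n := by
      unfold vl
      rw [Nat.cast_mul, map_mul]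
    rw [e1, h q hq p hp]
    ring

/-- the densities for discriminants -/
def gD (S : Finset ℕ) : Gm where
  g p := if p ∈ S then 0 else (p : ℝ) / (p + 1)
  nn p := by
    split_ifs
    · exact le_rfl
    · positivity
  le1 p := by
    split_ifs
    · exact zero_le_one
    · have : (0 : ℝ) ≤ p := Nat.cast_nonneg p
      rw [div_le_one (by positivity)]
      linarith
  D := 1
  D0 := zero_le_one
  S := S
  bd p hp hpS := by
    have hp0 : (0 : ℝ) < p := by exact_mod_cast hp.pos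
    rw [if_neg hpS]
    have : 1 - (p : ℝ) / (p + 1) = 1 / (p + 1) := by
      field_simp
      ring
    rw [this]
    exact one_div_le_one_div_of_le hp0 (by linarith)

lemma af_gD {S : Finset ℕ} {n : ℕ} (h : ¬ ∃ p ∈ S, p ∣ n) : af (gD S) n = Pool.Agent.N879.QM.af n := by
  unfold af Pool.Agent.N879.QM.af
  refine Finset.prod_congr rfl fun p hp => ?_
  have : p ∉ S := fun hS => h ⟨p, hS, Nat.dvd_of_mem_primeFactors hp⟩
  show (if p ∈ S then (0 : ℝ) else (p : ℝ) / (p + 1)) = _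
  rw [if_neg this]

/-- the sum of the remainders -/
lemma W_disc {C : ℝ} (hC : 0 < C) (hA : ∀ (s : ℤ) (X : ℝ) (n : ℕ), s = 1 ∨ s = -1 → 1 ≤ X → 1 ≤ n →
    (IsSquare n → ‖(∑ q ∈ Q s X, vl s q n) - ((c0 * X * Pool.Agent.N879.QM.af n : ℝ) : ℂ)‖ ≤ C * √X * √n) ∧
    (¬ IsSquare n → ‖∑ q ∈ Q s X, vl s q n‖ ≤ C * √X * √n)) (ε : ℕ → ℤ) (S : Finset ℕ)
    (hS : ∀ l ∈ S, l.Prime) (hε : ∀ l ∈ S, ε l = 1 ∨ ε l = -1 ∨ ε l = 0) (k : ℕ) (s : ℤ) (X : ℝ) (Y : ℕ)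
    (hs : s = 1 ∨ s = -1) (hX : 1 ≤ X) :
    ∑ n ∈ Finset.Icc 1 Y, ((Nat.finMulAntidiag k n).card : ℝ) *
      (‖Rc (gD S) S s X (cl S ε s) ((c0 * X * rho S ε : ℝ) : ℂ) n‖ ^ 2 / n) ≤
      (C * (PS S : ℝ) ^ 2) ^ 2 * X * (Y : ℝ) ^ k := by
  classical
  have hX0 : 0 < X := by linarith
  have hpt : ∀ n ∈ Finset.Icc 1 Y, ((Nat.finMulAntidiag k n).card : ℝ) *
      (‖Rc (gD S) S s X (cl S ε s) ((c0 * X * rho S ε : ℝ) : ℂ) n‖ ^ 2 / n) ≤
      ((C * (PS S : ℝ) ^ 2) ^ 2 * X) * (((Nat.finMulAntidiag k n).card : ℝ) * 1) := by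
    intro n hn
    rw [Finset.mem_Icc] at hn
    have hn0 : (0 : ℝ) < n := by exact_mod_cast hn.1
    have h1 : ‖Rc (gD S) S s X (cl S ε s) ((c0 * X * rho S ε : ℝ) : ℂ) n‖ ≤ C * (PS S : ℝ) ^ 2 * √X * √n := by
      unfold Rc
      split_ifs with hcop
      · rw [norm_zero]
        positivity
      · have hc : ∀ l ∈ S, ¬ l ∣ n := fun l hl hd => hcop ⟨l, hl, hd⟩
        have h2 := Sc_cl hC hA ε S hS hε s X n hs hX hn.1 hc
        have h3 : C * (∏ l ∈ S, (2 * l : ℝ)) * √X * √n ≤ C * (PS S : ℝ) ^ 2 * √X * √n := by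
          have h4 := mul_le_mul_of_nonneg_left (two_mul_PS hS) hC.le
          have h5 := mul_le_mul_of_nonneg_right h4 (Real.sqrt_nonneg X)
          exact mul_le_mul_of_nonneg_right h5 (Real.sqrt_nonneg _)
        unfold Rm
        by_cases hsq : IsSquare n
        · rw [if_pos hsq, af_gD hcop, ← Complex.ofReal_mul]
          exact (h2.1 hsq).trans h3
        · rw [if_neg hsq, mul_zero, sub_zero]
          exact (h2.2 hsq).trans h3
    have h2 : ‖Rc (gD S) S s X (cl S ε s) ((c0 * X * rho S ε : ℝ) : ℂ) n‖ ^ 2 / n ≤ (C * (PS S : ℝ) ^ 2) ^ 2 * X := by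
      rw [div_le_iff₀ hn0]
      refine (pow_le_pow_left₀ (norm_nonneg _) h1 2).trans (le_of_eq ?_)
      rw [mul_pow, mul_pow, Real.sq_sqrt hX0.le, Real.sq_sqrt hn0.le]
    have h3 := mul_le_mul_of_nonneg_left h2 (Nat.cast_nonneg (α := ℝ) (Nat.finMulAntidiag k n).card)
    refine h3.trans (le_of_eq ?_)
    ring
  refine (Finset.sum_le_sum hpt).trans ?_
  rw [← Finset.mul_sum]
  refine mul_le_mul_of_nonneg_left ?_ (by positivity)
  rw [← small k Y Y le_rfl (fun _ => (1 : ℝ)), Finset.sum_const, nsmul_eq_mul, mul_one]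
  have h1 : ((tup k Y).filter (fun n => pr n ≤ Y)).card ≤ Y ^ k := by
    rw [← tup_card k Y]
    exact Finset.card_le_card (Finset.filter_subset _ _)
  exact_mod_cast h1

lemma c0_pos : 0 < c0 := by
  unfold c0
  positivity

lemma c0_le : c0 ≤ 1 := by
  unfold c0
  have h := Real.pi_gt_three
  rw [div_le_one (by positivity)]
  nlinarith

/-- **The uniform theorem.** -/
theorem disc_unif (hMB : S_MB) (hP : S_P1) (hO : S_OPB) (hT : S_TEL) (hc : S_CTS) (hAV : S_AVG) (hFL : S_FL) (hZT : S_ZET)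
    (hN : S_NS) (k : ℕ) (θ : ℝ) (hk : 1 ≤ k) (hθ : 0 < θ) (hθ1 : θ ≤ 1) (m : ℕ) (hm : 8 * k + 1 ≤ m) (δ₁ : ℝ)
    (hδ₁ : 0 < δ₁) :
    ∃ η c X₀ : ℝ, 0 < η ∧ 0 < c ∧ 1 ≤ X₀ ∧ ∀ (s : ℤ) (X : ℝ) (S : Finset ℕ) (ε : ℕ → ℤ), s = 1 ∨ s = -1 → X₀ ≤ X →
      (∀ l ∈ S, l.Prime) → (∀ l ∈ S, ε l = 1 ∨ ε l = -1 ∨ ε l = 0) → (PS S : ℝ) ≤ X ^ c →
      ‖Sc s X (cl S ε s) 1 - ((c0 * X * rho S ε : ℝ) : ℂ)‖ ≤ X ^ (-η) * (c0 * X * rho S ε) ∧
      X ^ (1 - δ₁) ≤ X ^ (-η) * (c0 * X * rho S ε) ∧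
      mS k (X ^ θ) {β | X ^ (-η) * (c0 * X * rho S ε) < ‖FW k s θ m (cl S ε s) X β -
        ((c0 * X * rho S ε : ℝ) : ℂ) * (MT (gD S) (im β) / PU (epC S ε) (US k S) β)‖} ≤
        ENNReal.ofReal (X ^ (k * θ - η)) := by
  obtain ⟨CA, hCA, hAVG⟩ := id hAV
  have hE : S_EUL 1 := t_EUL zero_le_one
  have hCO := Coef.t_COEF hFL
  have hZR := t_ZR hZT hE
  obtain ⟨C, δ, X₁, K, Yf, hC, hδ, hδ8, hX₁, hYf, hA⟩ := asmL hMB hP hO hT hc hAV hCO hZR hE k θ hk hθ hθ1 m hm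
  obtain ⟨C₃, hC₃, hF⟩ := meas_fin hN k
  have hc0 := c0_pos
  obtain ⟨K', hK'⟩ : ∃ K' : ℕ, K' = K + 4 * k + 8 := ⟨_, rfl⟩
  obtain ⟨η, hη⟩ : ∃ η : ℝ, η = min (min (δ / 8) (θ / 4)) (min (δ₁ / 4) (1 / 16)) := ⟨_, rfl⟩
  have hη0 : 0 < η := by rw [hη]; exact lt_min (lt_min (by positivity) (by positivity)) (lt_min (by positivity) (by norm_num))
  have hη1 : η ≤ δ / 8 := by rw [hη]; exact (min_le_left _ _).trans (min_le_left _ _)
  have hη2 : η ≤ θ / 4 := by rw [hη]; exact (min_le_left _ _).trans (min_le_right _ _)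
  have hη3 : η ≤ δ₁ / 4 := by rw [hη]; exact (min_le_right _ _).trans (min_le_left _ _)
  have hη4 : η ≤ 1 / 16 := by rw [hη]; exact (min_le_right _ _).trans (min_le_right _ _)
  obtain ⟨c, hcd⟩ : ∃ c : ℝ, c = η / (4 * K') := ⟨_, rfl⟩
  have hK0 : (0 : ℝ) < K' := by
    rw [hK']
    positivity
  have hc00 : 0 < c := by rw [hcd]; positivity
  have hcK : c * K' ≤ η / 4 := by
    rw [hcd]
    field_simp
    exact le_rfl
  have evA : ∀ᶠ X : ℝ in atTop, 2 * C₃ ≤ X ^ (θ / 4) := (tendsto_rpow_atTop (by positivity)).eventually_ge_atTop _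
  have evB : ∀ᶠ X : ℝ in atTop, 2 * (C * (1 + CA ^ 2) / c0 ^ 2) ≤ X ^ (δ / 4) :=
    (tendsto_rpow_atTop (by positivity)).eventually_ge_atTop _
  have evC : ∀ᶠ X : ℝ in atTop, CA / c0 ≤ X ^ (1 / 4 : ℝ) :=
    (tendsto_rpow_atTop (by norm_num)).eventually_ge_atTop _
  have evD : ∀ᶠ X : ℝ in atTop, 1 / c0 ≤ X ^ (δ₁ / 2) := (tendsto_rpow_atTop (by positivity)).eventually_ge_atTop _
  obtain ⟨X₂, hX₂⟩ := eventually_atTop.1 ((evA.and evB).and (evC.and evD))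
  refine ⟨η, c, max X₁ X₂, hη0, hc00, hX₁.trans (le_max_left _ _), fun s X S ε hs hX hS hε hPX => ?_⟩
  obtain ⟨⟨vA, vB⟩, vC, vD⟩ := hX₂ X ((le_max_right _ _).trans hX)
  have hXX₁ : X₁ ≤ X := (le_max_left _ _).trans hX
  have hX1 : 1 ≤ X := hX₁.trans hXX₁
  have hX0 : 0 < X := by linarith
  obtain ⟨P, hPd⟩ : ∃ P : ℝ, P = PS S := ⟨_, rfl⟩
  have hP1 : 1 ≤ P := by rw [hPd]; exact one_le_PS hS
  have hP0 : 0 < P := by linarith
  rw [← hPd] at hPX
  have hPn : ∀ n : ℕ, n ≤ K' → P ^ n ≤ X ^ (η / 4) := by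
    intro n hn
    calc P ^ n ≤ (X ^ c) ^ n := pow_le_pow_left₀ hP0.le hPX n
      _ = X ^ (c * n) := by rw [← Real.rpow_natCast, ← Real.rpow_mul hX0.le]
      _ ≤ X ^ (η / 4) := by
          refine Real.rpow_le_rpow_of_exponent_le hX1 (le_trans ?_ hcK)
          exact mul_le_mul_of_nonneg_left (by exact_mod_cast hn) hc00.le
  obtain ⟨N, hNd⟩ : ∃ N : ℝ, N = c0 * X * rho S ε := ⟨_, rfl⟩
  rw [← hNd]
  have hrg : 1 / P ^ 2 ≤ rho S ε := by rw [hPd]; exact rho_ge hS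
  have hrp : 0 < rho S ε := rho_pos hS
  have hN0 : 0 < N := by rw [hNd]; positivity
  have hNge : c0 * X / P ^ 2 ≤ N := by
    rw [hNd]
    have := mul_le_mul_of_nonneg_left hrg (by positivity : 0 ≤ c0 * X)
    calc c0 * X / P ^ 2 = c0 * X * (1 / P ^ 2) := by ring
      _ ≤ _ := this
  have hNle : N ≤ X := by
    rw [hNd]
    have h1 := rho_le (ε := ε) hS
    have h2 := c0_le
    calc c0 * X * rho S ε ≤ 1 * X * 1 := by gcongr
      _ = X := by ring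
  refine ⟨?_, ?_, ?_⟩
  · -- the number
    have h1 := (Sc_cl hCA hAVG ε S hS hε s X 1 hs hX1 le_rfl (fun l hl hd => by
      have := (hS l hl).two_le
      have := Nat.le_of_dvd one_pos hd
      omega)).1 ⟨1, rfl⟩
    have h2 : Pool.Agent.N879.QM.af 1 = 1 := by unfold Pool.Agent.N879.QM.af; simp
    rw [h2, mul_one, Nat.cast_one, Real.sqrt_one, mul_one, ← hNd] at h1
    refine h1.trans ?_
    have h4 : CA * (∏ l ∈ S, (2 * l : ℝ)) * √X ≤ CA * P ^ 2 * √X := by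
      rw [hPd]
      exact mul_le_mul_of_nonneg_right (mul_le_mul_of_nonneg_left (two_mul_PS hS) hCA.le) (Real.sqrt_nonneg X)
    refine h4.trans ?_
    have h5 : X ^ (-η) * (c0 * X / P ^ 2) ≤ X ^ (-η) * N := mul_le_mul_of_nonneg_left hNge (by positivity)
    refine le_trans ?_ h5
    have e1 : CA * P ^ 2 * √X = (CA / c0) * P ^ 4 * (c0 * √X / P ^ 2) := by
      field_simp
    have e2 : X ^ (-η) * (c0 * X / P ^ 2) = (X ^ (-η) * √X) * (c0 * √X / P ^ 2) := by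
      have : X = √X * √X := (Real.mul_self_sqrt hX0.le).symm
      nth_rewrite 2 [this]
      ring
    rw [e1, e2]
    refine mul_le_mul_of_nonneg_right ?_ (by positivity)
    have h6 := hPn 4 (by omega)
    calc CA / c0 * P ^ 4 ≤ X ^ (1 / 4 : ℝ) * X ^ (η / 4) := mul_le_mul vC h6 (by positivity) (by positivity)
      _ = X ^ (1 / 4 + η / 4) := (Real.rpow_add hX0 _ _).symm
      _ ≤ X ^ (-η + 1 / 2) := Real.rpow_le_rpow_of_exponent_le hX1 (by linarith)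
      _ = X ^ (-η) * √X := by rw [Real.rpow_add hX0, Real.sqrt_eq_rpow]
  · have h5 : X ^ (-η) * (c0 * X / P ^ 2) ≤ X ^ (-η) * N := mul_le_mul_of_nonneg_left hNge (by positivity)
    refine le_trans ?_ h5
    have h6 := hPn 2 (by omega)
    have h7 : X ^ (1 - δ₁) * P ^ 2 * (1 / c0) ≤ X ^ (-η) * X := by
      calc X ^ (1 - δ₁) * P ^ 2 * (1 / c0) ≤ X ^ (1 - δ₁) * X ^ (η / 4) * X ^ (δ₁ / 2) :=
            mul_le_mul (mul_le_mul_of_nonneg_left h6 (by positivity)) vD (by positivity) (by positivity)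
        _ = X ^ (1 - δ₁ + η / 4 + δ₁ / 2) := by rw [Real.rpow_add hX0, Real.rpow_add hX0]
        _ ≤ X ^ (-η + 1) := Real.rpow_le_rpow_of_exponent_le hX1 (by linarith)
        _ = X ^ (-η) * X := by rw [Real.rpow_add hX0, Real.rpow_one]
    have h8 : X ^ (-η) * (c0 * X / P ^ 2) = (X ^ (-η) * X) * (c0 / P ^ 2) := by ring
    rw [h8]
    have h9 := mul_le_mul_of_nonneg_right h7 (by positivity : 0 ≤ c0 / P ^ 2)
    refine le_trans (le_of_eq ?_) h9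
    field_simp
  · have hε' := epC_le hε
    have hU : ∀ v ∈ US k S, v.1.Prime := fun v hv => hS v.1 (Finset.mem_product.1 hv).1
    have hMn : ‖((N : ℝ) : ℂ)‖ ≤ X := by
      rw [Complex.norm_real, Real.norm_of_nonneg hN0.le]
      exact hNle
    have h1 := hA (gD S) rfl hS (fun p hp => by
      have hp' : p ∈ S := hp
      show (if p ∈ S then (0 : ℝ) else (p : ℝ) / (p + 1)) = 0
      rw [if_pos hp']) (epC S ε) hε' s X (cl S ε s) ((N : ℝ) : ℂ) hs hXX₁ (cl_le S ε s) hMn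
      (fun p hp n _ => Sc_supp (fun q hq l hl => by
        unfold cl at hq
        split_ifs at hq with h
        · exact h l hl
        · exact absurd rfl hq) p hp n)
    have hS' : (gD S).S = S := rfl
    rw [hS', ← hPd] at h1
    have hW := W_disc hCA hAVG ε S hS hε k s X (Yf X) hs hX1
    rw [← hNd, ← hPd] at hW
    have hYk : (Yf X : ℝ) ^ k ≤ X ^ (1 / 100 : ℝ) := by
      refine le_trans ?_ (hYf X hXX₁).2
      exact pow_le_pow_right₀ (by exact_mod_cast (hYf X hXX₁).1) (by omega)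
    have hW2 : (CA * P ^ 2) ^ 2 * X * (Yf X : ℝ) ^ k ≤ CA ^ 2 * P ^ 4 * X ^ (2 - δ) := by
      calc (CA * P ^ 2) ^ 2 * X * (Yf X : ℝ) ^ k ≤ (CA * P ^ 2) ^ 2 * X * X ^ (1 / 100 : ℝ) :=
            mul_le_mul_of_nonneg_left hYk (by positivity)
        _ = CA ^ 2 * P ^ 4 * (X ^ (1 : ℝ) * X ^ (1 / 100 : ℝ)) := by rw [Real.rpow_one]; ring
        _ = CA ^ 2 * P ^ 4 * X ^ (1 + 1 / 100 : ℝ) := by rw [Real.rpow_add hX0]
        _ ≤ CA ^ 2 * P ^ 4 * X ^ (2 - δ) :=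
            mul_le_mul_of_nonneg_left (Real.rpow_le_rpow_of_exponent_le hX1 (by linarith)) (by positivity)
    have hXd : 0 < X ^ (2 - δ) := by positivity
    have hsum : X ^ (2 - δ) + ∑ n ∈ Finset.Icc 1 (Yf X), ((Nat.finMulAntidiag k n).card : ℝ) *
        (‖Rc (gD S) S s X (cl S ε s) ((N : ℝ) : ℂ) n‖ ^ 2 / n) ≤ (1 + CA ^ 2) * P ^ 4 * X ^ (2 - δ) := by
      have h2 : X ^ (2 - δ) ≤ P ^ 4 * X ^ (2 - δ) := le_mul_of_one_le_left hXd.le (one_le_pow₀ hP1)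
      have h3 := hW.trans hW2
      have e : (1 + CA ^ 2) * P ^ 4 * X ^ (2 - δ) = P ^ 4 * X ^ (2 - δ) + CA ^ 2 * P ^ 4 * X ^ (2 - δ) := by ring
      rw [e]
      exact add_le_add h2 h3
    have h3 := h1.trans (ENNReal.ofReal_le_ofReal (mul_le_mul_of_nonneg_left hsum
      (by positivity : 0 ≤ C * P ^ K * X ^ (k * θ))))
    have hA1 : 1 ≤ X ^ θ := Real.one_le_rpow hX1 hθ.le
    have hτ : 0 < X ^ (-η) * N := by positivity
    have h4 := hF (gD S) (t_EUL zero_le_one) (epC S ε) hε' (US k S) hU (X ^ θ) _ (X ^ (-η) * N) ((N : ℝ) : ℂ) _ hA1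
      (by positivity) hτ (FW_cont hc k s θ m (cl S ε s) X) h3
    refine h4.trans (ENNReal.ofReal_le_ofReal ?_)
    -- the first part
    have g1 : C₃ * (X ^ θ) ^ (k - 1 / 2 : ℝ) ≤ X ^ (k * θ - η) / 2 := by
      have e2 : (X ^ θ) ^ (k - 1 / 2 : ℝ) = X ^ (k * θ - η) * X ^ (η - θ / 2) := by
        rw [← Real.rpow_mul hX0.le, ← Real.rpow_add hX0]
        congr 1
        ring
      have e3 : X ^ (η - θ / 2) ≤ (X ^ (θ / 4))⁻¹ := by
        rw [← Real.rpow_neg hX0.le]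
        exact Real.rpow_le_rpow_of_exponent_le hX1 (by linarith)
      have e4 : C₃ * (X ^ (θ / 4))⁻¹ ≤ 1 / 2 := by
        have h5 : 0 < X ^ (θ / 4) := by positivity
        rw [← div_eq_mul_inv, div_le_div_iff₀ h5 (by norm_num)]
        linarith
      rw [e2]
      calc C₃ * (X ^ (k * θ - η) * X ^ (η - θ / 2)) ≤ C₃ * (X ^ (k * θ - η) * (X ^ (θ / 4))⁻¹) :=
            mul_le_mul_of_nonneg_left (mul_le_mul_of_nonneg_left e3 (by positivity)) hC₃.le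
        _ = X ^ (k * θ - η) * (C₃ * (X ^ (θ / 4))⁻¹) := by ring
        _ ≤ X ^ (k * θ - η) * (1 / 2) := mul_le_mul_of_nonneg_left e4 (by positivity)
        _ = _ := by ring
    have g2 : C * P ^ K * X ^ (k * θ) * ((1 + CA ^ 2) * P ^ 4 * X ^ (2 - δ)) /
        ((1 / 4 : ℝ) ^ (US k S).card * (X ^ (-η) * N)) ^ 2 ≤ X ^ (k * θ - η) / 2 := by
      -- lower bound for the denominator
      have d1 : 1 / P ^ (2 * k) ≤ (1 / 4 : ℝ) ^ (US k S).card := by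
        rw [US_card, one_div_pow]
        refine one_div_le_one_div_of_le (by positivity) ?_
        have h5 : (4 : ℝ) ^ (S.card * k) = (2 ^ S.card) ^ (2 * k) := by
          rw [← pow_mul, show (4 : ℝ) = 2 ^ 2 by norm_num, ← pow_mul]
          congr 1
          ring
        rw [h5, hPd]
        exact pow_le_pow_left₀ (by positivity) (two_le_PS hS) _
      have d2 : c0 * X ^ (1 - η) / P ^ (2 * k + 2) ≤ (1 / 4 : ℝ) ^ (US k S).card * (X ^ (-η) * N) := by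
        have h5 : X ^ (-η) * (c0 * X / P ^ 2) ≤ X ^ (-η) * N := mul_le_mul_of_nonneg_left hNge (by positivity)
        have h6 := mul_le_mul d1 h5 (by positivity) (by positivity)
        refine le_trans (le_of_eq ?_) h6
        have : X ^ (1 - η) = X ^ (-η) * X := by
          rw [sub_eq_add_neg, add_comm, Real.rpow_add hX0, Real.rpow_one]
        rw [this, pow_add]
        field_simp
      have d0 : 0 < c0 * X ^ (1 - η) / P ^ (2 * k + 2) := by positivity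
      have d3 := pow_le_pow_left₀ d0.le d2 2
      refine (div_le_div_of_nonneg_left (by positivity) (by positivity) d3).trans ?_
      have e5 : C * P ^ K * X ^ (k * θ) * ((1 + CA ^ 2) * P ^ 4 * X ^ (2 - δ)) /
          (c0 * X ^ (1 - η) / P ^ (2 * k + 2)) ^ 2 =
          (C * (1 + CA ^ 2) / c0 ^ 2) * P ^ K' * (X ^ (k * θ) * X ^ (2 - δ) / (X ^ (1 - η)) ^ 2) := by
        rw [hK']
        have : P ^ (K + 4 * k + 8) = P ^ K * P ^ 4 * (P ^ (2 * k + 2)) ^ 2 := by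
          rw [← pow_mul, ← pow_add, ← pow_add]
          congr 1
          ring
        rw [this]
        field_simp
      have e6 : X ^ (k * θ) * X ^ (2 - δ) / (X ^ (1 - η)) ^ 2 = X ^ (k * θ - η) * X ^ (3 * η - δ) := by
        rw [← Real.rpow_natCast (X ^ (1 - η)), ← Real.rpow_mul hX0.le, ← Real.rpow_add hX0, ← Real.rpow_sub hX0,
          ← Real.rpow_add hX0]
        congr 1
        push_cast
        ring
      rw [e5, e6]
      have h7 := hPn K' le_rfl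
      have h8 : (C * (1 + CA ^ 2) / c0 ^ 2) * P ^ K' * X ^ (3 * η - δ) ≤ 1 / 2 := by
        have h9 : P ^ K' * X ^ (3 * η - δ) ≤ (X ^ (δ / 4))⁻¹ := by
          calc P ^ K' * X ^ (3 * η - δ) ≤ X ^ (η / 4) * X ^ (3 * η - δ) := mul_le_mul_of_nonneg_right h7 (by positivity)
            _ = X ^ (η / 4 + (3 * η - δ)) := (Real.rpow_add hX0 _ _).symm
            _ ≤ X ^ (-(δ / 4)) := Real.rpow_le_rpow_of_exponent_le hX1 (by linarith)
            _ = (X ^ (δ / 4))⁻¹ := Real.rpow_neg hX0.le _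
        have h10 : 0 < X ^ (δ / 4) := by positivity
        have h11 : (C * (1 + CA ^ 2) / c0 ^ 2) * (X ^ (δ / 4))⁻¹ ≤ 1 / 2 := by
          rw [← div_eq_mul_inv, div_le_div_iff₀ h10 (by norm_num)]
          linarith
        have h12 : 0 ≤ C * (1 + CA ^ 2) / c0 ^ 2 := by positivity
        calc (C * (1 + CA ^ 2) / c0 ^ 2) * P ^ K' * X ^ (3 * η - δ) =
            (C * (1 + CA ^ 2) / c0 ^ 2) * (P ^ K' * X ^ (3 * η - δ)) := by ring
          _ ≤ (C * (1 + CA ^ 2) / c0 ^ 2) * (X ^ (δ / 4))⁻¹ := mul_le_mul_of_nonneg_left h9 h12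
          _ ≤ 1 / 2 := h11
      calc (C * (1 + CA ^ 2) / c0 ^ 2) * P ^ K' * (X ^ (k * θ - η) * X ^ (3 * η - δ)) =
          X ^ (k * θ - η) * ((C * (1 + CA ^ 2) / c0 ^ 2) * P ^ K' * X ^ (3 * η - δ)) := by ring
        _ ≤ X ^ (k * θ - η) * (1 / 2) := mul_le_mul_of_nonneg_left h8 (by positivity)
        _ = _ := by ring
    linarith

end

end Pool.Agent.J4.H50.EH
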