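import Pool.Agent.J4.H50.EH.App2

set_option autoImplicit false

/-! The removal of finitely many Euler factors from the short polynomials. -/

namespace Pool.Agent.J4.H50.EH

open Complex hiding im
open Filter Topology MeasureTheory Set
open Pool.Agent.N879.QM hiding meas_gA meas_al meas_Ak meas_MT meas_SN E3 MT af SN S_COEF S_ZR S_EUL
open Pool.Agent.J4.H50.EA

noncomputable section

variable {k : ℕ}

/-- polynomial over a set of tuples -/
def Tp (s : ℤ) (X : ℝ) (c : ℕ → ℂ) (T : Finset (Fin k → ℕ)) (β : Fin k → ℝ) : ℂ :=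
  ∑ n ∈ T, Sc s X c (pr n) * cx n β

lemma Tp_cont (s : ℤ) (X : ℝ) (c : ℕ → ℂ) {N : ℕ} {T : Finset (Fin k → ℕ)} (hT : T ⊆ tup k N) :
    Continuous (Tp s X c T) := by
  unfold Tp
  exact continuous_finsetSum _ fun n hn => continuous_const.mul (cx_cont (hT hn))

/-- mean squares of polynomials with bounded coefficients -/
theorem msq (k Y : ℕ) (A R : ℝ) (f : (Fin k → ℕ) → ℂ) (hR : 0 ≤ R) (hf : ∀ n ∈ tup k Y, ‖f n‖ ≤ R) (hY : 1 ≤ Y)
    (hA : 0 < A) :
    ∫ β, ‖∑ n ∈ tup k Y, f n * cx n β‖ ^ 2 ∂(mS k A) ≤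
      (2 * A) ^ k * (∑ n ∈ tup k Y, ‖f n‖ ^ 2 / pr n) + (2 * A) ^ k * (2 * R ^ 2 * ((Y : ℝ) ^ (2 * k + 1) / A)) := by
  classical
  obtain ⟨rr, hrr⟩ : ∃ rr : (Fin k → ℕ) → ℂ, rr = fun n =>
    f n * ((((pr n : ℕ) : ℝ) ^ (-(1 / 2) : ℝ) : ℝ) : ℂ) := ⟨_, rfl⟩
  have e1 : ∀ β, ∑ n ∈ tup k Y, f n * cx n β = ∑ n ∈ tup k Y, rr n * FLp.chr n β := by
    intro β
    refine Finset.sum_congr rfl fun n hn => ?_
    rw [hrr, cx_eq hn]
    ring
  have hb := FL2 k Y A rr hY hA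
  simp only [← e1] at hb
  have hb1 := (abs_le.1 hb).2
  have s1 : ∑ n ∈ tup k Y, ‖rr n‖ ^ 2 = ∑ n ∈ tup k Y, ‖f n‖ ^ 2 / pr n := by
    refine Finset.sum_congr rfl fun n hn => ?_
    rw [hrr]
    simp only
    rw [norm_mul, Complex.norm_real, Real.norm_of_nonneg (by positivity), mul_pow]
    have h1 : (0 : ℝ) < pr n := by exact_mod_cast one_le_pr hn
    rw [← Real.rpow_natCast (((pr n : ℕ) : ℝ) ^ (-(1 / 2) : ℝ)), ← Real.rpow_mul h1.le]
    norm_num
    rw [Real.rpow_neg_one]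
    rfl
  have hrr1 : ∀ n ∈ tup k Y, ‖rr n‖ ≤ R := by
    intro n hn
    rw [hrr]
    simp only
    have h1 : (1 : ℝ) ≤ pr n := by exact_mod_cast one_le_pr hn
    rw [norm_mul, Complex.norm_real, Real.norm_of_nonneg (by positivity)]
    calc ‖f n‖ * ((pr n : ℕ) : ℝ) ^ (-(1 / 2) : ℝ) ≤ R * 1 :=
          mul_le_mul (hf n hn) (Real.rpow_le_one_of_one_le_of_nonpos h1 (by norm_num))
            (by positivity) (by positivity)
      _ = R := mul_one _
  have s2 : (∑ n ∈ tup k Y, ‖rr n‖) ^ 2 ≤ ((Y : ℝ) ^ k * R) ^ 2 := by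
    refine pow_le_pow_left₀ (Finset.sum_nonneg fun _ _ => norm_nonneg _) ?_ 2
    refine (Finset.sum_le_sum hrr1).trans ?_
    rw [Finset.sum_const, tup_card, nsmul_eq_mul]
    push_cast
    exact le_rfl
  have s3 : (2 * A) ^ (k - 1 : ℝ) * (2 * A) = (2 * A) ^ k := by
    rw [← Real.rpow_natCast]
    nth_rewrite 2 [← Real.rpow_one (2 * A)]
    rw [← Real.rpow_add (by positivity)]
    congr 1
    ring
  have hP : 0 < (2 * A) ^ (k - 1 : ℝ) := Real.rpow_pos_of_pos (by linarith) _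
  have s4 : 4 * (Y : ℝ) * (2 * A) ^ (k - 1 : ℝ) * (∑ n ∈ tup k Y, ‖rr n‖) ^ 2 ≤
      (2 * A) ^ k * (2 * R ^ 2 * ((Y : ℝ) ^ (2 * k + 1) / A)) := by
    calc 4 * (Y : ℝ) * (2 * A) ^ (k - 1 : ℝ) * (∑ n ∈ tup k Y, ‖rr n‖) ^ 2
        ≤ 4 * (Y : ℝ) * (2 * A) ^ (k - 1 : ℝ) * ((Y : ℝ) ^ k * R) ^ 2 :=
          mul_le_mul_of_nonneg_left s2 (by positivity)
      _ = ((2 * A) ^ (k - 1 : ℝ) * (2 * A)) * (2 * R ^ 2 * ((Y : ℝ) ^ (2 * k + 1) / A)) := by
          field_simp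
          ring
      _ = _ := by rw [s3]
  rw [← s1]
  linarith

/-- mean squares of the tails -/
theorem Tp_tail (hAV : S_AVG) (k : ℕ) : ∃ C : ℝ, 0 < C ∧ ∀ (s : ℤ) (X A Y : ℝ) (c : ℕ → ℂ) (N : ℕ)
    (T : Finset (Fin k → ℕ)), s = 1 ∨ s = -1 → 1 ≤ X → 0 < A → (∀ q, ‖c q‖ ≤ 1) → 1 ≤ Y → 1 ≤ N → T ⊆ tup k N →
    (∀ n ∈ T, Y ≤ pr n) →
    ∫ β, ‖Tp s X c T β‖ ^ 2 ∂(mS k A) ≤
      C * (2 * A) ^ k * (X ^ 2 * Y ^ (-(1 / 8) : ℝ) + X ^ (7 / 4 : ℝ) * (N : ℝ) ^ k + X ^ 2 * ((N : ℝ) ^ (2 * k + 1) / A)) := by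
  classical
  obtain ⟨C, hC, ht⟩ := tail k hAV
  refine ⟨C + 2, by positivity, fun s X A Y c N T hs hX hA hc hY hN hT hTY => ?_⟩
  have hX0 : 0 < X := by linarith
  obtain ⟨f, hf⟩ : ∃ f : (Fin k → ℕ) → ℂ, f = fun n => if n ∈ T then Sc s X c (pr n) else 0 := ⟨_, rfl⟩
  have e1 : ∀ β, Tp s X c T β = ∑ n ∈ tup k N, f n * cx n β := by
    intro β
    unfold Tp
    rw [← Finset.sum_subset hT]
    · refine Finset.sum_congr rfl fun n hn => ?_
      rw [hf]
      simp only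
      rw [if_pos hn]
    · intro n _ hn
      rw [hf]
      simp only
      rw [if_neg hn, zero_mul]
  have h1 := msq k N A X f hX0.le (fun n _ => by
    rw [hf]
    simp only
    split_ifs
    · exact Sc_le hX hc _
    · rw [norm_zero]
      exact hX0.le) hN hA
  simp only [← e1] at h1
  have e2 : ∑ n ∈ tup k N, ‖f n‖ ^ 2 / pr n = ∑ n ∈ T, ‖Sc s X c (pr n)‖ ^ 2 / pr n := by
    rw [← Finset.sum_subset hT]
    · refine Finset.sum_congr rfl fun n hn => ?_
      rw [hf]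
      simp only
      rw [if_pos hn]
    · intro n _ hn
      rw [hf]
      simp only
      rw [if_neg hn, norm_zero]
      simp
  rw [e2] at h1
  have h2 := ht s X c N Y T hs hX hc hY hT hTY
  have hV : 0 < (2 * A) ^ k := by positivity
  have h3 := mul_le_mul_of_nonneg_left h2 hV.le
  refine h1.trans ?_
  have p1 : 0 ≤ (2 * A) ^ k * (X ^ 2 * Y ^ (-(1 / 8) : ℝ)) := by positivity
  have p2 : 0 ≤ (2 * A) ^ k * (X ^ (7 / 4 : ℝ) * (N : ℝ) ^ k) := by positivity
  have p3 : 0 ≤ C * ((2 * A) ^ k * (X ^ 2 * ((N : ℝ) ^ (2 * k + 1) / A))) := by positivity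
  have e3 : (C + 2) * (2 * A) ^ k * (X ^ 2 * Y ^ (-(1 / 8) : ℝ) + X ^ (7 / 4 : ℝ) * (N : ℝ) ^ k +
      X ^ 2 * ((N : ℝ) ^ (2 * k + 1) / A)) =
      (2 * A) ^ k * (C * (X ^ 2 * Y ^ (-(1 / 8) : ℝ) + X ^ (7 / 4 : ℝ) * (N : ℝ) ^ k)) +
      2 * ((2 * A) ^ k * (X ^ 2 * Y ^ (-(1 / 8) : ℝ))) + 2 * ((2 * A) ^ k * (X ^ (7 / 4 : ℝ) * (N : ℝ) ^ k)) +
      (2 * A) ^ k * (2 * X ^ 2 * ((N : ℝ) ^ (2 * k + 1) / A)) +
      C * ((2 * A) ^ k * (X ^ 2 * ((N : ℝ) ^ (2 * k + 1) / A))) := by ring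
  rw [e3]
  linarith

/-! ### Removing one factor -/

open Classical in
/-- tuples with product `≤ Y` and `p ∤ n_j` for `(p, j) ∈ U` -/
def TU (k Y : ℕ) (U : Finset (ℕ × Fin k)) : Finset (Fin k → ℕ) :=
  (tup k Y).filter (fun n => pr n ≤ Y ∧ ∀ u ∈ U, ¬ u.1 ∣ n u.2)

/-- the Euler factors -/
def PU (ε : ℕ → ℂ) (U : Finset (ℕ × Fin k)) (β : Fin k → ℝ) : ℂ :=
  ∏ u ∈ U, (1 - ε u.1 * (u.1 : ℂ) ^ (-(pt (β u.2))))

lemma pr_pos {n : Fin k → ℕ} (hn : ∀ j, 1 ≤ n j) : 1 ≤ pr n := by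
  unfold pr
  exact Nat.one_le_iff_ne_zero.2 (Finset.prod_ne_zero_iff.2 fun j _ => by
    have := hn j
    omega)

lemma mem_of_pr {n : Fin k → ℕ} {Y : ℕ} (hn : ∀ j, 1 ≤ n j) (h : pr n ≤ Y) : n ∈ tup k Y := by
  rw [mem_tup]
  intro j
  refine ⟨hn j, le_trans ?_ h⟩
  exact Nat.le_of_dvd (pr_pos hn) (Finset.dvd_prod_of_mem n (Finset.mem_univ j))

lemma mem_TU {Y : ℕ} {U : Finset (ℕ × Fin k)} {n : Fin k → ℕ} :
    n ∈ TU k Y U ↔ (∀ j, 1 ≤ n j) ∧ pr n ≤ Y ∧ ∀ u ∈ U, ¬ u.1 ∣ n u.2 := by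
  classical
  unfold TU
  rw [Finset.mem_filter]
  constructor
  · rintro ⟨h1, h2⟩
    exact ⟨fun j => (mem_tup.1 h1 j).1, h2⟩
  · rintro ⟨h1, h2, h3⟩
    exact ⟨mem_of_pr h1 h2, h2, h3⟩

lemma TU_sub {Y : ℕ} {U : Finset (ℕ × Fin k)} : TU k Y U ⊆ tup k Y := by
  classical
  unfold TU
  exact Finset.filter_subset _ _

lemma pr_up (n : Fin k → ℕ) (j : Fin k) (p : ℕ) : pr (Function.update n j (p * n j)) = p * pr n := by
  classical
  unfold pr
  rw [Finset.prod_update_of_mem (Finset.mem_univ j), Finset.prod_eq_mul_prod_sdiff_singleton_of_mem (Finset.mem_univ j) n,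
    mul_assoc]

lemma cx_up (n : Fin k → ℕ) (j : Fin k) (p : ℕ) (β : Fin k → ℝ) :
    cx (Function.update n j (p * n j)) β = (p : ℂ) ^ (-(pt (β j))) * cx n β := by
  classical
  unfold cx
  rw [Finset.prod_eq_mul_prod_sdiff_singleton_of_mem (Finset.mem_univ j),
    Finset.prod_eq_mul_prod_sdiff_singleton_of_mem (Finset.mem_univ j) (fun i => (n i : ℂ) ^ (-(pt (β i)))),
    Function.update_self, Nat.cast_mul, Complex.natCast_mul_natCast_cpow, mul_assoc]
  congr 2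
  refine Finset.prod_congr rfl fun i hi => ?_
  rw [Finset.mem_sdiff, Finset.mem_singleton] at hi
  rw [Function.update_of_ne hi.2]

open Classical in
/-- the boundary terms -/
def BU (k Y : ℕ) (U : Finset (ℕ × Fin k)) (u : ℕ × Fin k) : Finset (Fin k → ℕ) :=
  (TU k (u.1 * Y) U).filter (fun n => u.1 ∣ n u.2 ∧ Y < pr n)

/-- one factor -/
lemma step_one {s : ℤ} {X : ℝ} {c : ℕ → ℂ} {ε : ℕ → ℂ} {Y : ℕ} {U : Finset (ℕ × Fin k)} {u : ℕ × Fin k} (hu : u ∉ U)
    (hp : u.1.Prime) (hU : ∀ v ∈ U, v.1.Prime) (hS : ∀ m, 1 ≤ m → Sc s X c (u.1 * m) = ε u.1 * Sc s X c m)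
    (β : Fin k → ℝ) :
    Tp s X c (TU k Y U) β * (1 - ε u.1 * (u.1 : ℂ) ^ (-(pt (β u.2)))) =
      Tp s X c (TU k Y (insert u U)) β - Tp s X c (BU k Y U u) β := by
  classical
  obtain ⟨p, j⟩ := u
  simp only at hp hS
  -- the sum over the tuples with `p ∣ n_j`
  have h1 : Tp s X c (TU k Y U) β = Tp s X c (TU k Y (insert (p, j) U)) β +
      Tp s X c ((TU k Y U).filter (fun n => p ∣ n j)) β := by
    unfold Tp
    rw [← Finset.sum_filter_add_sum_filter_not (TU k Y U) (fun n => p ∣ n j), add_comm]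
    congr 1
    refine Finset.sum_congr ?_ fun _ _ => rfl
    ext n
    rw [Finset.mem_filter, mem_TU, mem_TU]
    simp only [Finset.mem_insert, forall_eq_or_imp]
    tauto
  have h2 : (ε p * (p : ℂ) ^ (-(pt (β j)))) * Tp s X c (TU k Y U) β =
      Tp s X c ((TU k (p * Y) U).filter (fun n => p ∣ n j)) β := by
    unfold Tp
    rw [Finset.mul_sum]
    refine Finset.sum_nbij' (fun n => Function.update n j (p * n j)) (fun n => Function.update n j (n j / p))
      ?_ ?_ ?_ ?_ ?_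
    · intro n hn
      rw [mem_TU] at hn
      rw [Finset.mem_filter, mem_TU, pr_up, Function.update_self]
      refine ⟨⟨fun i => ?_, Nat.mul_le_mul_left p hn.2.1, fun v hv => ?_⟩, Dvd.intro _ rfl⟩
      · by_cases hi : i = j
        · subst hi
          rw [Function.update_self]
          exact Nat.one_le_iff_ne_zero.2 (Nat.mul_ne_zero hp.ne_zero (by have := hn.1 i; omega))
        · rw [Function.update_of_ne hi]
          exact hn.1 i
      · by_cases hi : v.2 = j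
        · rw [hi, Function.update_self]
          intro hd
          have h3 := hn.2.2 v hv
          rw [hi] at h3
          rcases (hU v hv).dvd_mul.1 hd with h4 | h4
          · have h5 : v.1 = p := (Nat.prime_dvd_prime_iff_eq (hU v hv) hp).1 h4
            apply hu
            have h6 : v = (p, j) := Prod.ext h5 hi
            rwa [← h6]
          · exact h3 h4
        · rw [Function.update_of_ne hi]
          exact hn.2.2 v hv
    · intro n hn
      rw [Finset.mem_filter, mem_TU] at hn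
      obtain ⟨⟨a1, a2, a3⟩, a4⟩ := hn
      have e1 : n = Function.update (Function.update n j (n j / p)) j
          (p * (Function.update n j (n j / p)) j) := by
        rw [Function.update_self, Function.update_idem, Nat.mul_div_cancel' a4, Function.update_eq_self]
      have e2 : pr n = p * pr (Function.update n j (n j / p)) := by
        conv_lhs => rw [e1]
        exact pr_up _ _ _
      have hq : 1 ≤ n j / p := Nat.div_pos (Nat.le_of_dvd (a1 j) a4) hp.pos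
      rw [mem_TU]
      refine ⟨fun i => ?_, ?_, fun v hv => ?_⟩
      · by_cases hi : i = j
        · subst hi
          rw [Function.update_self]
          exact hq
        · rw [Function.update_of_ne hi]
          exact a1 i
      · rw [e2] at a2
        exact Nat.le_of_mul_le_mul_left a2 hp.pos
      · by_cases hi : v.2 = j
        · rw [hi, Function.update_self]
          intro hd
          have h3 := a3 v hv
          rw [hi] at h3
          exact h3 (hd.trans (Nat.div_dvd_of_dvd a4))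
        · rw [Function.update_of_ne hi]
          exact a3 v hv
    · intro n hn
      rw [Function.update_self, Function.update_idem, Nat.mul_div_cancel_left _ hp.pos, Function.update_eq_self]
    · intro n hn
      rw [Finset.mem_filter] at hn
      rw [Function.update_self, Function.update_idem, Nat.mul_div_cancel' hn.2, Function.update_eq_self]
    · intro n hn
      rw [mem_TU] at hn
      rw [pr_up, cx_up, hS _ (pr_pos hn.1)]
      ring
  have h3 : Tp s X c ((TU k (p * Y) U).filter (fun n => p ∣ n j)) β =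
      Tp s X c ((TU k Y U).filter (fun n => p ∣ n j)) β + Tp s X c (BU k Y U (p, j)) β := by
    unfold Tp
    rw [← Finset.sum_filter_add_sum_filter_not ((TU k (p * Y) U).filter (fun n => p ∣ n j)) (fun n => pr n ≤ Y)]
    congr 1
    · refine Finset.sum_congr ?_ fun _ _ => rfl
      ext n
      simp only [Finset.mem_filter, mem_TU]
      constructor
      · rintro ⟨⟨⟨a1, a2, a3⟩, a4⟩, a5⟩
        exact ⟨⟨a1, a5, a3⟩, a4⟩
      · rintro ⟨⟨a1, a2, a3⟩, a4⟩
        exact ⟨⟨⟨a1, a2.trans (Nat.le_mul_of_pos_left Y hp.pos), a3⟩, a4⟩, a2⟩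
    · refine Finset.sum_congr ?_ fun _ _ => rfl
      ext n
      unfold BU
      simp only [Finset.mem_filter, mem_TU, not_le]
      tauto
  simp only
  rw [mul_sub, mul_one, mul_comm (Tp s X c (TU k Y U) β), h2, h3]
  linear_combination h1

end

end Pool.Agent.J4.H50.EH
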