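import Pool.Agent.J4.H50.EH.L1

set_option autoImplicit false

/-! The removal of finitely many Euler factors from the short polynomials, mean squares. -/

namespace Pool.Agent.J4.H50.EH

open Complex hiding im
open Filter Topology MeasureTheory Set
open Pool.Agent.N879.QM hiding meas_gA meas_al meas_Ak meas_MT meas_SN E3 MT af SN S_COEF S_ZR S_EUL
open Pool.Agent.J4.H50.EA

noncomputable section

variable {k : ℕ}

lemma fac_cont (a : ℂ) (p : ℕ) (hp : p ≠ 0) (j : Fin k) :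
    Continuous fun β : Fin k → ℝ => (1 - a * (p : ℂ) ^ (-(pt (β j)))) := by
  have hp0 : (p : ℂ) ≠ 0 := by exact_mod_cast hp
  have h1 : Continuous fun β : Fin k → ℝ => (-(pt (β j)) : ℂ) := by
    unfold pt
    fun_prop
  exact continuous_const.sub (continuous_const.mul (h1.const_cpow (Or.inl hp0)))

lemma fac_le {a : ℂ} (ha : ‖a‖ ≤ 1) {p : ℕ} (hp : 1 ≤ p) (t : ℝ) : ‖(1 - a * (p : ℂ) ^ (-(pt t)))‖ ≤ 2 := by
  have h1 : ‖(p : ℂ) ^ (-(pt t))‖ ≤ 1 := by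
    rw [Complex.norm_natCast_cpow_of_pos (by omega)]
    refine Real.rpow_le_one_of_one_le_of_nonpos (by exact_mod_cast hp) ?_
    unfold pt
    simp
  refine (norm_sub_le _ _).trans ?_
  rw [norm_one, norm_mul]
  have := mul_le_mul ha h1 (norm_nonneg _) zero_le_one
  linarith

lemma PU_cont (ε : ℕ → ℂ) {U : Finset (ℕ × Fin k)} (hU : ∀ v ∈ U, v.1.Prime) : Continuous (PU ε U) := by
  unfold PU
  exact continuous_finsetProd _ fun u hu => fac_cont _ _ (hU u hu).ne_zero _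

lemma PU_le {ε : ℕ → ℂ} (hε : ∀ p, ‖ε p‖ ≤ 1) {U : Finset (ℕ × Fin k)} (hU : ∀ v ∈ U, v.1.Prime) (β : Fin k → ℝ) :
    ‖PU ε U β‖ ≤ 2 ^ U.card := by
  unfold PU
  rw [norm_prod]
  refine (Finset.prod_le_prod (fun _ _ => norm_nonneg _) fun u hu => fac_le (hε _) (hU u hu).one_le _).trans ?_
  rw [Finset.prod_const]

lemma DY_TU (s : ℤ) (X : ℝ) (c : ℕ → ℂ) (Y : ℕ) (β : Fin k → ℝ) :
    DY k s X c Y β = Tp s X c (TU k Y ∅) β := by
  classical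
  unfold DY Tp
  refine Finset.sum_congr ?_ fun _ _ => rfl
  ext n
  rw [mem_TU, Finset.mem_filter, mem_tup]
  constructor
  · rintro ⟨h1, h2⟩
    exact ⟨fun j => (h1 j).1, h2, fun u hu => absurd hu (Finset.notMem_empty _)⟩
  · rintro ⟨h1, h2, _⟩
    exact ⟨mem_tup.1 (mem_of_pr h1 h2), h2⟩

/-- the constant -/
def KU (K : ℝ) (U : Finset (ℕ × Fin k)) : ℝ := ∏ u ∈ U, (K * (u.1 : ℝ) ^ (2 * k + 1))

lemma KU_one {K : ℝ} (hK : 1 ≤ K) {U : Finset (ℕ × Fin k)} (hU : ∀ v ∈ U, v.1.Prime) : 1 ≤ KU K U := by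
  unfold KU
  have h : ∀ u ∈ U, (1 : ℝ) ≤ K * (u.1 : ℝ) ^ (2 * k + 1) := by
    intro u hu
    have h1 : (1 : ℝ) ≤ u.1 := by exact_mod_cast (hU u hu).one_le
    exact one_le_mul_of_one_le_of_one_le hK (one_le_pow₀ h1)
  calc (1 : ℝ) = ∏ _u ∈ U, (1 : ℝ) := by rw [Finset.prod_const_one]
    _ ≤ _ := Finset.prod_le_prod (fun _ _ => zero_le_one) h

/-- the Euler factors are removed -/
theorem PU_near (hAV : S_AVG) (k : ℕ) : ∃ K : ℝ, 1 ≤ K ∧ ∀ (ε : ℕ → ℂ), (∀ p, ‖ε p‖ ≤ 1) → ∀ (U : Finset (ℕ × Fin k)),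
    (∀ v ∈ U, v.1.Prime) → ∀ (s : ℤ) (X A : ℝ) (c : ℕ → ℂ) (Y : ℕ), s = 1 ∨ s = -1 → 1 ≤ X → 0 < A →
    (∀ q, ‖c q‖ ≤ 1) → (∀ v ∈ U, ∀ m, 1 ≤ m → Sc s X c (v.1 * m) = ε v.1 * Sc s X c m) → 1 ≤ Y →
    ∫ β, ‖DY k s X c Y β * PU ε U β - Tp s X c (TU k Y U) β‖ ^ 2 ∂(mS k A) ≤
      KU K U * (2 * A) ^ k * (X ^ 2 * (Y : ℝ) ^ (-(1 / 8) : ℝ) + X ^ (7 / 4 : ℝ) * (Y : ℝ) ^ k +
        X ^ 2 * ((Y : ℝ) ^ (2 * k + 1) / A)) := by
  classical
  obtain ⟨C₂, hC₂, h2⟩ := Tp_tail hAV k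
  refine ⟨8 + 2 * C₂, by linarith, fun ε hε U => ?_⟩
  refine Finset.induction_on U ?_ ?_
  · intro _ s X A c Y hs hX hA hc _ hY
    have e1 : ∀ β : Fin k → ℝ, ‖DY k s X c Y β * PU ε ∅ β - Tp s X c (TU k Y ∅) β‖ ^ 2 = 0 := by
      intro β
      unfold PU
      rw [Finset.prod_empty, mul_one, DY_TU, sub_self, norm_zero, zero_pow two_ne_zero]
    simp only [e1]
    rw [integral_zero]
    unfold KU
    rw [Finset.prod_empty]
    positivity
  · intro u U hu ih hU' s X A c Y hs hX hA hc hS hY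
    have hU : ∀ v ∈ U, v.1.Prime := fun v hv => hU' v (Finset.mem_insert_of_mem hv)
    have hp : u.1.Prime := hU' u (Finset.mem_insert_self _ _)
    have h1 := ih hU
    have hp1 : (1 : ℝ) ≤ u.1 := by exact_mod_cast hp.one_le
    obtain ⟨C₁, hC₁d⟩ : ∃ C₁ : ℝ, C₁ = KU (8 + 2 * C₂) U := ⟨_, rfl⟩
    have hC₁1 : 1 ≤ C₁ := by rw [hC₁d]; exact KU_one (by linarith) hU
    have hC₁ : 0 < C₁ := by linarith
    rw [← hC₁d] at h1
    have hKU : 8 * C₁ + 2 * C₂ * (u.1 : ℝ) ^ (2 * k + 1) ≤ KU (8 + 2 * C₂) (insert u U) := by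
      have e0 : KU (8 + 2 * C₂) (insert u U) = ((8 + 2 * C₂) * (u.1 : ℝ) ^ (2 * k + 1)) * C₁ := by
        rw [hC₁d]
        unfold KU
        rw [Finset.prod_insert hu]
      rw [e0]
      have b0 : (1 : ℝ) ≤ (u.1 : ℝ) ^ (2 * k + 1) := one_le_pow₀ hp1
      have m1 : 8 * C₁ ≤ 8 * (u.1 : ℝ) ^ (2 * k + 1) * C₁ := by
        have := mul_le_mul_of_nonneg_left b0 (by positivity : 0 ≤ 8 * C₁)
        linarith
      have m2 : 2 * C₂ * (u.1 : ℝ) ^ (2 * k + 1) ≤ 2 * C₂ * (u.1 : ℝ) ^ (2 * k + 1) * C₁ :=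
        le_mul_of_one_le_right (by positivity) hC₁1
      linarith
    have hX0 : 0 < X := by linarith
    have a1 := h1 s X A c Y hs hX hA hc (fun v hv => hS v (Finset.mem_insert_of_mem hv)) hY
    have hBsub : BU k Y U u ⊆ tup k (u.1 * Y) := by
      unfold BU
      exact (Finset.filter_subset _ _).trans TU_sub
    have a2 := h2 s X A Y c (u.1 * Y) (BU k Y U u) hs hX hA hc (by exact_mod_cast hY)
      (Nat.mul_pos hp.pos hY) hBsub (fun n hn => by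
        unfold BU at hn
        rw [Finset.mem_filter] at hn
        exact_mod_cast hn.2.2.le)
    have hY1 : (1 : ℝ) ≤ Y := by exact_mod_cast hY
    have hpt : ∀ β : Fin k → ℝ, ‖DY k s X c Y β * PU ε (insert u U) β - Tp s X c (TU k Y (insert u U)) β‖ ^ 2 ≤
        8 * ‖DY k s X c Y β * PU ε U β - Tp s X c (TU k Y U) β‖ ^ 2 + 2 * ‖Tp s X c (BU k Y U u) β‖ ^ 2 := by
      intro β
      have e1 : PU ε (insert u U) β = (1 - ε u.1 * (u.1 : ℂ) ^ (-(pt (β u.2)))) * PU ε U β := by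
        unfold PU
        rw [Finset.prod_insert hu]
      have e2 := step_one (Y := Y) hu hp hU (hS u (Finset.mem_insert_self _ _)) β
      have e3 : DY k s X c Y β * PU ε (insert u U) β - Tp s X c (TU k Y (insert u U)) β =
          (1 - ε u.1 * (u.1 : ℂ) ^ (-(pt (β u.2)))) * (DY k s X c Y β * PU ε U β - Tp s X c (TU k Y U) β) -
          Tp s X c (BU k Y U u) β := by
        rw [e1]
        linear_combination e2
      rw [e3]
      have h3 := fac_le (hε u.1) hp.one_le (β u.2)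
      have h4 : ‖(1 - ε u.1 * (u.1 : ℂ) ^ (-(pt (β u.2)))) * (DY k s X c Y β * PU ε U β - Tp s X c (TU k Y U) β)‖ ≤
          2 * ‖DY k s X c Y β * PU ε U β - Tp s X c (TU k Y U) β‖ := by
        rw [norm_mul]
        exact mul_le_mul_of_nonneg_right h3 (norm_nonneg _)
      have h5 := norm_sub_le ((1 - ε u.1 * (u.1 : ℂ) ^ (-(pt (β u.2)))) *
        (DY k s X c Y β * PU ε U β - Tp s X c (TU k Y U) β)) (Tp s X c (BU k Y U u) β)
      have h6 : ‖(1 - ε u.1 * (u.1 : ℂ) ^ (-(pt (β u.2)))) * (DY k s X c Y β * PU ε U β - Tp s X c (TU k Y U) β) -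
          Tp s X c (BU k Y U u) β‖ ≤ 2 * ‖DY k s X c Y β * PU ε U β - Tp s X c (TU k Y U) β‖ +
          ‖Tp s X c (BU k Y U u) β‖ := h5.trans (add_le_add h4 le_rfl)
      refine (pow_le_pow_left₀ (norm_nonneg _) h6 2).trans ?_
      nlinarith [sq_nonneg (2 * ‖DY k s X c Y β * PU ε U β - Tp s X c (TU k Y U) β‖ -
          ‖Tp s X c (BU k Y U u) β‖)]
    have c1 : Continuous fun β : Fin k → ℝ => DY k s X c Y β * PU ε U β - Tp s X c (TU k Y U) β :=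
      ((DY_cont k s X c Y).mul (PU_cont ε hU)).sub (Tp_cont s X c TU_sub)
    have c2 : Continuous fun β : Fin k → ℝ => DY k s X c Y β * PU ε (insert u U) β -
        Tp s X c (TU k Y (insert u U)) β :=
      ((DY_cont k s X c Y).mul (PU_cont ε hU')).sub (Tp_cont s X c TU_sub)
    have c3 : Continuous fun β : Fin k → ℝ => Tp s X c (BU k Y U u) β := Tp_cont s X c hBsub
    have i1 : Integrable (fun β : Fin k → ℝ => ‖DY k s X c Y β * PU ε U β - Tp s X c (TU k Y U) β‖ ^ 2) (mS k A) :=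
      int_cont (c1.norm.pow 2)
    have i2 : Integrable (fun β : Fin k → ℝ => ‖DY k s X c Y β * PU ε (insert u U) β -
        Tp s X c (TU k Y (insert u U)) β‖ ^ 2) (mS k A) := int_cont (c2.norm.pow 2)
    have i3 : Integrable (fun β : Fin k → ℝ => ‖Tp s X c (BU k Y U u) β‖ ^ 2) (mS k A) := int_cont (c3.norm.pow 2)
    have hint := integral_mono (μ := mS k A) i2 ((i1.const_mul 8).add (i3.const_mul 2)) hpt
    have hadd := integral_add (μ := mS k A) (i1.const_mul 8) (i3.const_mul 2)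
    rw [integral_const_mul, integral_const_mul] at hadd
    refine (hint.trans (le_of_eq hadd)).trans ?_
    obtain ⟨V, hV⟩ : ∃ V : ℝ, V = (2 * A) ^ k := ⟨_, rfl⟩
    rw [← hV] at a1 a2 ⊢
    have hV0 : 0 < V := by rw [hV]; positivity
    obtain ⟨B, hB⟩ : ∃ B : ℝ, B = X ^ 2 * (Y : ℝ) ^ (-(1 / 8) : ℝ) + X ^ (7 / 4 : ℝ) * (Y : ℝ) ^ k +
        X ^ 2 * ((Y : ℝ) ^ (2 * k + 1) / A) := ⟨_, rfl⟩
    rw [← hB] at a1 ⊢
    have hb : X ^ 2 * (Y : ℝ) ^ (-(1 / 8) : ℝ) + X ^ (7 / 4 : ℝ) * ((u.1 * Y : ℕ) : ℝ) ^ k +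
        X ^ 2 * (((u.1 * Y : ℕ) : ℝ) ^ (2 * k + 1) / A) ≤ (u.1 : ℝ) ^ (2 * k + 1) * B := by
      have b0 : (1 : ℝ) ≤ (u.1 : ℝ) ^ (2 * k + 1) := one_le_pow₀ hp1
      have b1 : (u.1 : ℝ) ^ k ≤ (u.1 : ℝ) ^ (2 * k + 1) := pow_le_pow_right₀ hp1 (by omega)
      push_cast
      rw [mul_pow, mul_pow, hB]
      have g1 : 0 ≤ X ^ 2 * (Y : ℝ) ^ (-(1 / 8) : ℝ) := by positivity
      have g2 : 0 ≤ X ^ (7 / 4 : ℝ) * (Y : ℝ) ^ k := by positivity
      have m1 := mul_le_mul_of_nonneg_right b0 g1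
      have m2 := mul_le_mul_of_nonneg_right b1 g2
      have e4 : X ^ 2 * ((u.1 : ℝ) ^ (2 * k + 1) * (Y : ℝ) ^ (2 * k + 1) / A) =
          (u.1 : ℝ) ^ (2 * k + 1) * (X ^ 2 * ((Y : ℝ) ^ (2 * k + 1) / A)) := by ring
      rw [e4]
      linarith
    have a3 : C₂ * V * (X ^ 2 * (Y : ℝ) ^ (-(1 / 8) : ℝ) + X ^ (7 / 4 : ℝ) * ((u.1 * Y : ℕ) : ℝ) ^ k +
        X ^ 2 * (((u.1 * Y : ℕ) : ℝ) ^ (2 * k + 1) / A)) ≤ C₂ * V * ((u.1 : ℝ) ^ (2 * k + 1) * B) :=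
      mul_le_mul_of_nonneg_left hb (by positivity)
    have a4 := a2.trans a3
    have e5 : (8 * C₁ + 2 * C₂ * (u.1 : ℝ) ^ (2 * k + 1)) * V * B =
        8 * (C₁ * V * B) + 2 * (C₂ * V * ((u.1 : ℝ) ^ (2 * k + 1) * B)) := by ring
    have hB0 : 0 ≤ B := by rw [hB]; positivity
    refine le_trans ?_ (mul_le_mul_of_nonneg_right (mul_le_mul_of_nonneg_right hKU hV0.le) hB0)
    rw [e5]
    linarith

/-! ### The comparison with the diagonal sum -/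

/-- the remainder of the correlations -/
def Rm (γ : Gm) (s : ℤ) (X : ℝ) (c : ℕ → ℂ) (M : ℂ) (n : ℕ) : ℂ :=
  Sc s X c n - M * (if IsSquare n then (af γ n : ℂ) else 0)

lemma Rm_le (γ : Gm) {s : ℤ} {X : ℝ} (hX : 1 ≤ X) {c : ℕ → ℂ} (hc : ∀ q, ‖c q‖ ≤ 1) {M : ℂ} (hM : ‖M‖ ≤ X) (n : ℕ) :
    ‖Rm γ s X c M n‖ ≤ 2 * X := by
  unfold Rm
  have h1 := Sc_le (s := s) hX hc n
  have h2 : ‖M * (if IsSquare n then (af γ n : ℂ) else 0)‖ ≤ X := by
    rw [norm_mul]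
    split_ifs
    · calc ‖M‖ * ‖(af γ n : ℂ)‖ ≤ X * 1 := mul_le_mul hM (af_sm γ n) (norm_nonneg _) (by linarith)
        _ = X := mul_one X
    · rw [norm_zero, mul_zero]
      linarith
  have h3 := norm_sub_le (Sc s X c n) (M * (if IsSquare n then (af γ n : ℂ) else 0))
  linarith

open Classical in
/-- the same on the integers coprime to `S` -/
def Rc (γ : Gm) (S : Finset ℕ) (s : ℤ) (X : ℝ) (c : ℕ → ℂ) (M : ℂ) (n : ℕ) : ℂ :=
  if ∃ p ∈ S, p ∣ n then 0 else Rm γ s X c M n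

/-- all pairs -/
def US (k : ℕ) (S : Finset ℕ) : Finset (ℕ × Fin k) := S ×ˢ Finset.univ

lemma US_cop {S : Finset ℕ} (hS : ∀ p ∈ S, p.Prime) {n : Fin k → ℕ} :
    (∀ u ∈ US k S, ¬ u.1 ∣ n u.2) ↔ ¬ ∃ p ∈ S, p ∣ pr n := by
  unfold US pr
  constructor
  · rintro h ⟨p, hp, hd⟩
    rw [Prime.dvd_finsetProd_iff (hS p hp).prime] at hd
    obtain ⟨j, _, hj⟩ := hd
    exact h (p, j) (Finset.mem_product.2 ⟨hp, Finset.mem_univ _⟩) hj
  · intro h u hu hd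
    rw [Finset.mem_product] at hu
    exact h ⟨u.1, hu.1, hd.trans (Finset.dvd_prod_of_mem n (Finset.mem_univ _))⟩

/-- the difference of the short polynomials -/
theorem Tc_DS (γ : Gm) (S : Finset ℕ) (hS : ∀ p ∈ S, p.Prime) (hγ : ∀ p ∈ S, γ.g p = 0) (k : ℕ) (s : ℤ) (X : ℝ)
    (c : ℕ → ℂ) (M : ℂ) (Y : ℕ) (A : ℝ) (hX : 1 ≤ X) (hc : ∀ q, ‖c q‖ ≤ 1) (hM : ‖M‖ ≤ X) (hY : 1 ≤ Y) (hA : 0 < A) :
    ∫ β, ‖Tp s X c (TU k Y (US k S)) β - M * DS γ k Y β‖ ^ 2 ∂(mS k A) ≤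
      (2 * A) ^ k * (∑ n ∈ Finset.Icc 1 Y, ((Nat.finMulAntidiag k n).card : ℝ) * (‖Rc γ S s X c M n‖ ^ 2 / n)) +
      (2 * A) ^ k * (8 * X ^ 2 * ((Y : ℝ) ^ (2 * k + 1) / A)) := by
  classical
  have hX0 : 0 < X := by linarith
  obtain ⟨f, hf⟩ : ∃ f : (Fin k → ℕ) → ℂ, f = fun n => if pr n ≤ Y then Rc γ S s X c M (pr n) else 0 := ⟨_, rfl⟩
  have e1 : ∀ β, Tp s X c (TU k Y (US k S)) β - M * DS γ k Y β = ∑ n ∈ tup k Y, f n * cx n β := by
    intro β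
    have e2 : Tp s X c (TU k Y (US k S)) β = ∑ n ∈ tup k Y, (if pr n ≤ Y ∧ ¬ ∃ p ∈ S, p ∣ pr n then
        Sc s X c (pr n) else 0) * cx n β := by
      unfold Tp TU
      rw [Finset.sum_filter]
      refine Finset.sum_congr rfl fun n hn => ?_
      by_cases h : pr n ≤ Y ∧ ¬ ∃ p ∈ S, p ∣ pr n
      · rw [if_pos h, if_pos ⟨h.1, (US_cop hS).2 h.2⟩]
      · rw [if_neg h, if_neg (fun h3 => h ⟨h3.1, (US_cop hS).1 h3.2⟩), zero_mul]
    have e3 : M * DS γ k Y β = ∑ n ∈ tup k Y, (if pr n ≤ Y ∧ ¬ ∃ p ∈ S, p ∣ pr n then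
        M * (if IsSquare (pr n) then (af γ (pr n) : ℂ) else 0) else 0) * cx n β := by
      unfold DS
      rw [Finset.mul_sum, Finset.sum_filter]
      refine Finset.sum_congr rfl fun n hn => ?_
      by_cases h : pr n ≤ Y
      · rw [if_pos h]
        by_cases h2 : ∃ p ∈ S, p ∣ pr n
        · rw [if_neg (show ¬ (pr n ≤ Y ∧ ¬ ∃ p ∈ S, p ∣ pr n) from fun h3 => h3.2 h2), zero_mul]
          obtain ⟨p, hp, hd⟩ := h2
          have h4 : af γ (pr n) = 0 := by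
            unfold af
            refine Finset.prod_eq_zero (i := p) ?_ (hγ p hp)
            rw [Nat.mem_primeFactors]
            have := one_le_pr hn
            exact ⟨hS p hp, hd, by omega⟩
          rw [h4]
          simp
        · rw [if_pos (show pr n ≤ Y ∧ ¬ ∃ p ∈ S, p ∣ pr n from ⟨h, h2⟩)]
          split_ifs
          · ring
          · ring
      · rw [if_neg h, if_neg (show ¬ (pr n ≤ Y ∧ ¬ ∃ p ∈ S, p ∣ pr n) from fun h3 => h h3.1), zero_mul]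
    rw [e2, e3, ← Finset.sum_sub_distrib]
    refine Finset.sum_congr rfl fun n hn => ?_
    rw [hf]
    simp only
    unfold Rc Rm
    by_cases h : pr n ≤ Y
    · by_cases h2 : ∃ p ∈ S, p ∣ pr n
      · rw [if_neg (fun h3 => h3.2 h2), if_neg (fun h3 => h3.2 h2), if_pos h, if_pos h2]
        ring
      · rw [if_pos ⟨h, h2⟩, if_pos ⟨h, h2⟩, if_pos h, if_neg h2]
        ring
    · rw [if_neg (fun h3 => h h3.1), if_neg (fun h3 => h h3.1), if_neg h]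
      ring
  have h1 := msq k Y A (2 * X) f (by positivity) (fun n _ => by
    rw [hf]
    simp only
    unfold Rc
    split_ifs
    · rw [norm_zero]
      positivity
    · exact Rm_le γ hX hc hM _
    · rw [norm_zero]
      positivity) hY hA
  simp only [← e1] at h1
  have s1 : ∑ n ∈ tup k Y, ‖f n‖ ^ 2 / pr n =
      ∑ n ∈ Finset.Icc 1 Y, ((Nat.finMulAntidiag k n).card : ℝ) * (‖Rc γ S s X c M n‖ ^ 2 / n) := by
    rw [← small k Y Y le_rfl (fun n => ‖Rc γ S s X c M n‖ ^ 2 / n), Finset.sum_filter]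
    refine Finset.sum_congr rfl fun n hn => ?_
    rw [hf]
    simp only
    by_cases h : pr n ≤ Y
    · rw [if_pos h, if_pos h]
    · rw [if_neg h, if_neg h, norm_zero]
      simp
  rw [s1] at h1
  refine h1.trans (le_of_eq ?_)
  ring

end

end Pool.Agent.J4.H50.EH
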