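import Pool.Agent.N879.QM.Stm

set_option autoImplicit false

/-! General local densities: the main terms for families with other local densities. -/

namespace Pool.Agent.J4.H50.EH

open Complex Filter Topology MeasureTheory Set
open Pool.Agent.N879.QM

noncomputable section

/-- local densities `γ(p)`, `0 ≤ γ(p) ≤ 1`, `1 - γ(p) ≤ D / p` off `S` -/
structure Gm where
  g : ℕ → ℝ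
  nn : ∀ p, 0 ≤ g p
  le1 : ∀ p, g p ≤ 1
  D : ℝ
  D0 : 0 ≤ D
  S : Finset ℕ
  bd : ∀ p : ℕ, p.Prime → p ∉ S → 1 - g p ≤ D / p

/-- local factor at `p` -/
def loc (γ : Gm) {k : ℕ} (z : Fin k → ℂ) (p : ℕ) : ℂ :=
  (∏ r : Pr k, (1 - (p : ℂ) ^ (-(1 + z r.1.1 + z r.1.2)))) *
    ((γ.g p : ℂ) * (1 / 2 * ((∏ j, (1 - (p : ℂ) ^ (-(1 / 2 + z j)))⁻¹) + ∏ j, (1 + (p : ℂ) ^ (-(1 / 2 + z j)))⁻¹)) +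
      (1 - (γ.g p : ℂ)))

/-- the Euler product -/
def Ak (γ : Gm) {k : ℕ} (z : Fin k → ℂ) : ℂ := ∏' p : Nat.Primes, loc γ z p

/-- the main term -/
def MT (γ : Gm) {k : ℕ} (z : Fin k → ℂ) : ℂ := Ak γ z * ∏ r : Pr k, riemannZeta (1 + z r.1.1 + z r.1.2)

/-- `∏_{p ∣ n} γ(p)` -/
def af (γ : Gm) (n : ℕ) : ℝ := ∏ p ∈ n.primeFactors, γ.g p

open Classical in
/-- the diagonal sum -/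
def SN (γ : Gm) (k N : ℕ) (β : Fin k → ℝ) : ℂ :=
  ∑ n ∈ tup k N, if IsSquare (∏ j, n j) then (af γ (∏ j, n j) : ℂ) * cx n β else 0

/-- `m ↦ a(m) ∑_{n_1 ⋯ n_k = m²} ∏ n_j^{-s_j}` -/
def gA (γ : Gm) {k : ℕ} (β : Fin k → ℝ) : ArithmeticFunction ℂ :=
  ⟨fun m => if m = 0 then 0 else (af γ m : ℂ) * ∑ n ∈ Nat.finMulAntidiag k (m ^ 2), cx n β, by simp⟩

/-- the coefficients of the Euler product -/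
def al (γ : Gm) {k : ℕ} (β : Fin k → ℝ) : ArithmeticFunction ℂ := gA γ β * ∏ r : Pr k, muA (pp β r)

/-- EUL -/
def S_EUL (D : ℝ) : Prop := ∀ k : ℕ, ∃ C κ : ℝ, 0 < C ∧ 1 ≤ κ ∧ ∀ (γ : Gm), γ.D = D → ∀ (β : Fin k → ℝ),
  ‖Ak γ (im β)‖ ≤ C * κ ^ γ.S.card ∧
    ∀ M : ℕ, 1 ≤ M → ‖Ak γ (im β) - ∑ m ∈ Finset.Icc 1 M, al γ β m‖ ≤ C * κ ^ γ.S.card * (M : ℝ) ^ (-(1 / 4) : ℝ)

/-- ZR -/
def S_ZR (D : ℝ) : Prop := ∀ k : ℕ, ∃ (C κ A₀ : ℝ) (B : ℕ), 0 < C ∧ 1 ≤ κ ∧ 3 ≤ A₀ ∧ ∀ (γ : Gm), γ.D = D →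
  ∀ (A : ℝ) (Y M : ℕ), A₀ ≤ A → 1 ≤ Y → 1 ≤ M →
  (Y : ℝ) ≤ A ^ (1 / 2 : ℝ) →
  ∫⁻ β in Gd k A, ENNReal.ofReal (‖MT γ (im β) -
    (∑ m ∈ Finset.Icc 1 M, al γ β m) * ∏ r : Pr k, zN Y (pp β r)‖ ^ 2) ∂(mS k A) ≤
    ENNReal.ofReal (C * κ ^ γ.S.card * Real.log A ^ B * A ^ k * ((Y : ℝ) ^ (-1 : ℝ) + (M : ℝ) ^ (-(1 / 2) : ℝ)))

/-- COEF -/
def S_COEF : Prop := ∀ k : ℕ, ∃ (C : ℝ) (B : ℕ), 0 < C ∧ ∀ (γ : Gm) (A : ℝ) (Y : ℕ), 1 ≤ Y → (Y : ℝ) ^ B ≤ A →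
  ∫⁻ β, ENNReal.ofReal (‖(∑ m ∈ Finset.Icc 1 (Y ^ k), al γ β m) * (∏ r : Pr k, zN Y (pp β r)) - SN γ k Y β‖ ^ 2)
    ∂(mS k A) ≤ ENNReal.ofReal (C * A ^ k * (Y : ℝ) ^ (-(1 / 4) : ℝ))

end

end Pool.Agent.J4.H50.EH
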